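import Pool.Agent.H27F.Defs

/-!
# The algebra of digits (helper91)
-/

set_option autoImplicit false

open Pool.Agent.H27F

namespace Pool.Agent.H27G

/-- the sequence `a k * 2 ^ (-k) * x` -/
noncomputable def sq (a : ℕ → ℝ) (ha : ∀ k, |a k| ≤ 4) (x : ℝ) : Dec :=
  ⟨fun k => a k * ((1 / 2) ^ k * x), by
    refine ⟨4 * |x|, 1 / 2, by norm_num, by norm_num, fun k => ?_⟩
    have h2 : (0 : ℝ) < (1 / 2) ^ k := by positivity
    rw [abs_mul, abs_mul, abs_of_pos h2]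
    calc |a k| * ((1 / 2) ^ k * |x|) ≤ 4 * ((1 / 2) ^ k * |x|) := by
          gcongr
          exact ha k
      _ = 4 * |x| * (1 / 2) ^ k := by ring⟩

theorem sq_apply (a : ℕ → ℝ) (ha : ∀ k, |a k| ≤ 4) (x : ℝ) (k : ℕ) :
    (sq a ha x).1 k = a k * ((1 / 2) ^ k * x) := rfl

theorem one_le4 : ∀ k : ℕ, |(fun _ => 1 : ℕ → ℝ) k| ≤ 4 := fun k => by norm_num

theorem dec_ext {s t : Dec} (h : ∀ k, s.1 k = t.1 k) : s = t := Subtype.ext (funext h)

theorem cancel_mid {A : Type*} [AddCommGroup A] {P Q R : A} (h : P = Q + (P - R)) : Q = R := by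
  have h1 : Q - R = Q + (P - R) - P := by abel
  rw [← h, sub_self] at h1
  exact sub_eq_zero.mp h1

/-- the value of the form on the head of a sequence of remainders -/
theorem alg_left {A : Type*} [AddCommGroup A] (c : ℝ →+ ℝ →+ A) (F : Dec →+ Dec →+ A)
    (hF : ∀ s t : Dec, F s t = c (s.1 0) (t.1 0) + F (shL s) (shL t))
    (ρ d : ℕ → ℝ) (hρ : ∀ k, |ρ k| ≤ 4) (hd : ∀ k, |d k| ≤ 4)
    (hs : ∀ k, ρ (k + 1) = 4 * (ρ k - d k)) (x y : ℝ) :
    c (ρ 0 * x) y = F (sq d hd x) (sq (fun _ => 1) one_le4 y) := by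
  have h := hF (sq ρ hρ x) (sq (fun _ => 1) one_le4 y)
  have e1 : shL (sq ρ hρ x) = (sq ρ hρ x - sq d hd x) + (sq ρ hρ x - sq d hd x) := by
    refine dec_ext fun k => ?_
    change ρ (k + 1) * ((1 / 2) ^ (k + 1) * x)
      = (ρ k * ((1 / 2) ^ k * x) - d k * ((1 / 2) ^ k * x))
        + (ρ k * ((1 / 2) ^ k * x) - d k * ((1 / 2) ^ k * x))
    rw [hs, pow_succ]
    ring
  have e2 : shL (sq (fun _ => 1) one_le4 y) + shL (sq (fun _ => 1) one_le4 y)
      = sq (fun _ => 1) one_le4 y := by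
    refine dec_ext fun k => ?_
    change 1 * ((1 / 2) ^ (k + 1) * y) + 1 * ((1 / 2) ^ (k + 1) * y) = 1 * ((1 / 2) ^ k * y)
    rw [pow_succ]
    ring
  have e3 : F (shL (sq ρ hρ x)) (shL (sq (fun _ => 1) one_le4 y))
      = F (sq ρ hρ x) (sq (fun _ => 1) one_le4 y) - F (sq d hd x) (sq (fun _ => 1) one_le4 y) := by
    rw [e1, map_add, AddMonoidHom.add_apply, ← map_add, e2, map_sub, AddMonoidHom.sub_apply]
  have e4 : (sq ρ hρ x).1 0 = ρ 0 * x := by
    rw [sq_apply, pow_zero, one_mul]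
  have e5 : (sq (fun _ => 1) one_le4 y).1 0 = y := by
    rw [sq_apply, pow_zero, one_mul, one_mul]
  rw [e3, e4, e5] at h
  exact cancel_mid h

/-- indicator sequences move from one side to the other -/
theorem ind_move {A : Type*} [AddCommGroup A] (F : Dec →+ Dec →+ A)
    (h0 : ∀ s t : Dec, (∀ k, s.1 k = 0 ∨ t.1 k = 0) → F s t = 0)
    (e : ℕ → ℝ) (he : ∀ k, |e k| ≤ 4) (h01 : ∀ k, e k = 0 ∨ e k = 1) (x y : ℝ) :
    F (sq e he x) (sq (fun _ => 1) one_le4 y) = F (sq (fun _ => 1) one_le4 x) (sq e he y) := by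
  have a1 : F (sq e he x) (sq (fun _ => 1) one_le4 y - sq e he y) = 0 := by
    refine h0 _ _ fun k => ?_
    rcases h01 k with h | h
    · left
      rw [sq_apply, h, zero_mul]
    · right
      change 1 * ((1 / 2) ^ k * y) - e k * ((1 / 2) ^ k * y) = 0
      rw [h, sub_self]
  have a2 : F (sq (fun _ => 1) one_le4 x - sq e he x) (sq e he y) = 0 := by
    refine h0 _ _ fun k => ?_
    rcases h01 k with h | h
    · right
      rw [sq_apply, h, zero_mul]
    · left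
      change 1 * ((1 / 2) ^ k * x) - e k * ((1 / 2) ^ k * x) = 0
      rw [h, sub_self]
  rw [map_sub, sub_eq_zero] at a1
  rw [map_sub, AddMonoidHom.sub_apply, sub_eq_zero] at a2
  rw [a1, a2]

/-- digit sequences move from one side to the other -/
theorem dig_move {A : Type*} [AddCommGroup A] (F : Dec →+ Dec →+ A)
    (h0 : ∀ s t : Dec, (∀ k, s.1 k = 0 ∨ t.1 k = 0) → F s t = 0)
    (n : ℕ → ℤ) (hn0 : ∀ k, 0 ≤ n k) (hn3 : ∀ k, n k ≤ 3) (hd : ∀ k, |((n k : ℤ) : ℝ)| ≤ 4)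
    (x y : ℝ) :
    F (sq (fun k => (n k : ℝ)) hd x) (sq (fun _ => 1) one_le4 y)
      = F (sq (fun _ => 1) one_le4 x) (sq (fun k => (n k : ℝ)) hd y) := by
  let e : ℤ → ℕ → ℝ := fun i k => if i ≤ n k then 1 else 0
  have he : ∀ i k, |e i k| ≤ 4 := by
    intro i k
    by_cases h : i ≤ n k <;> simp [e, h]
  have h01 : ∀ i k, e i k = 0 ∨ e i k = 1 := by
    intro i k
    by_cases h : i ≤ n k <;> simp [e, h]
  have hsum : ∀ x, sq (fun k => (n k : ℝ)) hd x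
      = sq (e 1) (he 1) x + sq (e 2) (he 2) x + sq (e 3) (he 3) x := by
    intro x
    refine dec_ext fun k => ?_
    change (n k : ℝ) * ((1 / 2) ^ k * x) = e 1 k * ((1 / 2) ^ k * x) + e 2 k * ((1 / 2) ^ k * x)
      + e 3 k * ((1 / 2) ^ k * x)
    have h1 : (n k : ℝ) = e 1 k + e 2 k + e 3 k := by
      have h2 : n k = 0 ∨ n k = 1 ∨ n k = 2 ∨ n k = 3 := by
        have := hn0 k
        have := hn3 k
        omega
      rcases h2 with h | h | h | h <;> simp [e, h] <;> norm_num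
    rw [h1]
    ring
  rw [hsum, hsum, map_add, map_add, map_add, map_add, AddMonoidHom.add_apply,
    AddMonoidHom.add_apply, ind_move F h0 (e 1) (he 1) (h01 1), ind_move F h0 (e 2) (he 2) (h01 2),
    ind_move F h0 (e 3) (he 3) (h01 3)]

/-- the remainders of the expansion in base `4` -/
noncomputable def rem (α : ℝ) : ℕ → ℝ
  | 0 => α
  | k + 1 => 4 * Int.fract (rem α k)

theorem rem_nonneg {α : ℝ} (h : 0 ≤ α) : ∀ k, 0 ≤ rem α k
  | 0 => h
  | k + 1 => by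
    change 0 ≤ 4 * Int.fract (rem α k)
    have := Int.fract_nonneg (rem α k)
    positivity

theorem rem_lt {α : ℝ} (h : α < 1) : ∀ k, rem α k < 4
  | 0 => by
    change α < 4
    linarith
  | k + 1 => by
    change 4 * Int.fract (rem α k) < 4
    have := Int.fract_lt_one (rem α k)
    linarith

theorem alg_frac {A : Type*} [AddCommGroup A] (c : ℝ →+ ℝ →+ A) (F : Dec →+ Dec →+ A)
    (hF : ∀ s t : Dec, F s t = c (s.1 0) (t.1 0) + F (shL s) (shL t))
    (h0 : ∀ s t : Dec, (∀ k, s.1 k = 0 ∨ t.1 k = 0) → F s t = 0)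
    (α : ℝ) (hα : 0 ≤ α) (hα1 : α < 1) (x y : ℝ) : c (α * x) y = c x (α * y) := by
  have hρ : ∀ k, |rem α k| ≤ 4 := by
    intro k
    rw [abs_of_nonneg (rem_nonneg hα k)]
    exact (rem_lt hα1 k).le
  have hn0 : ∀ k, 0 ≤ ⌊rem α k⌋ := fun k => Int.floor_nonneg.mpr (rem_nonneg hα k)
  have hn3 : ∀ k, ⌊rem α k⌋ ≤ 3 := by
    intro k
    have h1 : ⌊rem α k⌋ < 4 := Int.floor_lt.mpr (by
      have := rem_lt hα1 k
      exact_mod_cast this)
    omega
  have hd : ∀ k, |((⌊rem α k⌋ : ℤ) : ℝ)| ≤ 4 := by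
    intro k
    have h1 : (0 : ℝ) ≤ (⌊rem α k⌋ : ℤ) := by exact_mod_cast hn0 k
    have h2 : ((⌊rem α k⌋ : ℤ) : ℝ) ≤ 3 := by exact_mod_cast hn3 k
    rw [abs_of_nonneg h1]
    linarith
  have hs : ∀ k, rem α (k + 1) = 4 * (rem α k - (⌊rem α k⌋ : ℝ)) := fun k => rfl
  have h1 := alg_left c F hF (rem α) (fun k => ((⌊rem α k⌋ : ℤ) : ℝ)) hρ hd hs x y
  have h2 := alg_left c.flip F.flip (fun s t => hF t s) (rem α) (fun k => ((⌊rem α k⌋ : ℤ) : ℝ))
    hρ hd hs y x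
  have h3 := dig_move F h0 (fun k => ⌊rem α k⌋) hn0 hn3 hd x y
  change c (α * x) y = _ at h1
  change c x (α * y) = F (sq (fun _ => 1) one_le4 x) (sq (fun k => ((⌊rem α k⌋ : ℤ) : ℝ)) hd y) at h2
  rw [h1, h2]
  exact h3

theorem alg_real {A : Type*} [AddCommGroup A] (c : ℝ →+ ℝ →+ A) (F : Dec →+ Dec →+ A)
    (hF : ∀ s t : Dec, F s t = c (s.1 0) (t.1 0) + F (shL s) (shL t))
    (h0 : ∀ s t : Dec, (∀ k, s.1 k = 0 ∨ t.1 k = 0) → F s t = 0)
    (α x y : ℝ) : c (α * x) y = c x (α * y) := by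
  have h1 : ∀ z : ℝ, α * z = ⌊α⌋ • z + Int.fract α * z := by
    intro z
    rw [zsmul_eq_mul, ← add_mul, Int.floor_add_fract]
  have h2 := alg_frac c F hF h0 (Int.fract α) (Int.fract_nonneg α) (Int.fract_lt_one α) x y
  rw [h1 x, h1 y, map_add, map_add, AddMonoidHom.add_apply, h2, map_zsmul, map_zsmul,
    AddMonoidHom.zsmul_apply]

theorem exists_split (s : Dec) : ∃ (u : Dec) (x : ℝ), s = u - shR u + one0 x := by
  obtain ⟨C, r, hr, hr1, h⟩ := s.2
  have hb : ∀ n j, ‖s.1 (j + n)‖ ≤ C * r ^ n * r ^ j := by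
    intro n j
    rw [Real.norm_eq_abs]
    refine (h (j + n)).trans (le_of_eq ?_)
    rw [pow_add]
    ring
  have hg : ∀ n, HasSum (fun j => C * r ^ n * r ^ j) (C * r ^ n * (1 - r)⁻¹) := fun n =>
    (hasSum_geometric_of_lt_one hr.le hr1).mul_left (C * r ^ n)
  have hsum : ∀ n, Summable fun j => s.1 (j + n) := fun n =>
    Summable.of_norm_bounded (hg n).summable (hb n)
  have hstep : ∀ n, ∑' j, s.1 (j + n) = s.1 n + ∑' j, s.1 (j + (n + 1)) := by
    intro n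
    rw [(hsum n).tsum_eq_zero_add, zero_add]
    congr 1
    refine tsum_congr fun j => ?_
    rw [add_assoc, add_comm 1 n]
  let u : Dec := ⟨fun k => -∑' j, s.1 (j + (k + 1)), by
    refine ⟨C * r * (1 - r)⁻¹, r, hr, hr1, fun k => ?_⟩
    rw [abs_neg, ← Real.norm_eq_abs]
    refine (tsum_of_norm_bounded (hg (k + 1)) (hb (k + 1))).trans (le_of_eq ?_)
    rw [pow_succ]
    ring⟩
  refine ⟨u, ∑' j, s.1 (j + 0), dec_ext fun k => ?_⟩
  rcases k with _ | k
  · change s.1 0 = -∑' j, s.1 (j + (0 + 1)) - 0 + ∑' j, s.1 (j + 0)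
    rw [hstep 0]
    ring
  · change s.1 (k + 1) = -∑' j, s.1 (j + (k + 1 + 1)) - (-∑' j, s.1 (j + (k + 1))) + 0
    rw [hstep (k + 1)]
    ring

end Pool.Agent.H27G
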