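import Mathlib

/-!
# Compositions of many small maps
-/

set_option autoImplicit false

open scoped ContDiff

namespace Pool.Agent.H27G

/-- the derivative of `v ∘ (id + u)` -/
lemma comp_fderiv {V : Type} [NormedAddCommGroup V] [NormedSpace ℝ V] (u : ℂ → ℂ) (v : ℂ → V)
    (hu : ContDiff ℝ ∞ u) (hv : ContDiff ℝ ∞ v) :
    fderiv ℝ (fun w => v (w + u w)) = fun w => fderiv ℝ v (w + u w) +
      (ContinuousLinearMap.compL ℝ ℂ ℂ V) (fderiv ℝ v (w + u w)) (fderiv ℝ u w) := by
  funext w
  have h1 : HasFDerivAt u (fderiv ℝ u w) w := (hu.differentiable (by simp) w).hasFDerivAt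
  have h2 : HasFDerivAt (fun w => w + u w) (ContinuousLinearMap.id ℝ ℂ + fderiv ℝ u w) w :=
    (hasFDerivAt_id w).add h1
  have h3 : HasFDerivAt v (fderiv ℝ v (w + u w)) (w + u w) :=
    (hv.differentiable (by simp) _).hasFDerivAt
  have h4 := (h3.comp w h2).fderiv
  have h5 : (fun w => v (w + u w)) = v ∘ fun w => w + u w := rfl
  rw [h5, h4, ContinuousLinearMap.comp_add, ContinuousLinearMap.comp_id]
  rfl

/-- composition with a small perturbation of the identity -/
theorem comp_small (B : ℝ) (hB : 0 ≤ B) (n : ℕ) : ∃ C : ℝ, 0 ≤ C ∧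
    ∀ (V : Type) [NormedAddCommGroup V] [NormedSpace ℝ V] (u : ℂ → ℂ) (v : ℂ → V) (η K : ℝ),
      ContDiff ℝ ∞ u → ContDiff ℝ ∞ v → 0 ≤ η → η ≤ B → 0 ≤ K →
      (∀ j ≤ n, ∀ w, ‖iteratedFDeriv ℝ j u w‖ ≤ η) →
      (∀ j ≤ n, ∀ w, ‖iteratedFDeriv ℝ j v w‖ ≤ K) →
      ∀ j ≤ n, ∀ w, ‖iteratedFDeriv ℝ j (fun w => v (w + u w)) w‖ ≤ (1 + C * η) * K := by
  induction n with
  | zero =>
    refine ⟨0, le_refl _, ?_⟩
    intro V _ _ u v η K _ _ _ _ _ _ h2 j hj w
    obtain rfl : j = 0 := by omega
    have h3 := h2 0 le_rfl (w + u w)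
    rw [norm_iteratedFDeriv_zero] at h3 ⊢
    rw [zero_mul, add_zero, one_mul]
    exact h3
  | succ n ih =>
    obtain ⟨C, hC, ih⟩ := ih
    refine ⟨C + 2 ^ n + C * 2 ^ n * B, by positivity, ?_⟩
    intro V _ _ u v η K hu hv hη hηB hK h1 h2 j hj w
    rcases j with _ | j
    · have h3 := h2 0 (Nat.zero_le _) (w + u w)
      rw [norm_iteratedFDeriv_zero] at h3 ⊢
      refine h3.trans ?_
      have h4 : 0 ≤ (C + 2 ^ n + C * 2 ^ n * B) * η * K := by positivity
      nlinarith
    · have hjn : j ≤ n := by omega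
      have hv' : ContDiff ℝ ∞ (fderiv ℝ v) := hv.fderiv_right (by simp)
      have hu' : ContDiff ℝ ∞ (fderiv ℝ u) := hu.fderiv_right (by simp)
      have hvb : ∀ i ≤ n, ∀ w, ‖iteratedFDeriv ℝ i (fderiv ℝ v) w‖ ≤ K := by
        intro i hi w
        rw [norm_iteratedFDeriv_fderiv]
        exact h2 (i + 1) (by omega) w
      have hub : ∀ i ≤ n, ∀ w, ‖iteratedFDeriv ℝ i (fderiv ℝ u) w‖ ≤ η := by
        intro i hi w
        rw [norm_iteratedFDeriv_fderiv]
        exact h1 (i + 1) (by omega) w
      have hg : ContDiff ℝ ∞ (fun w => fderiv ℝ v (w + u w)) := hv'.comp (contDiff_id.add hu)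
      have h5 := ih (ℂ →L[ℝ] V) u (fderiv ℝ v) η K hu hv' hη hηB hK
        (fun i hi w => h1 i (by omega) w) hvb
      have h6 : ‖iteratedFDeriv ℝ j (fun w => (ContinuousLinearMap.compL ℝ ℂ ℂ V)
          (fderiv ℝ v (w + u w)) (fderiv ℝ u w)) w‖ ≤ 2 ^ n * ((1 + C * η) * K * η) := by
        refine (ContinuousLinearMap.norm_iteratedFDeriv_le_of_bilinear_of_le_one
          (ContinuousLinearMap.compL ℝ ℂ ℂ V) hg hu' w (n := j)
          (by exact_mod_cast le_top)
          (ContinuousLinearMap.norm_compL_le ℝ ℂ ℂ V)).trans ?_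
        calc ∑ i ∈ Finset.range (j + 1), (j.choose i : ℝ) *
              ‖iteratedFDeriv ℝ i (fun w => fderiv ℝ v (w + u w)) w‖ *
              ‖iteratedFDeriv ℝ (j - i) (fderiv ℝ u) w‖
            ≤ ∑ i ∈ Finset.range (j + 1), (j.choose i : ℝ) * ((1 + C * η) * K * η) := by
              refine Finset.sum_le_sum fun i hi => ?_
              rw [Finset.mem_range] at hi
              have h7 := h5 i (by omega) w
              have h8 := hub (j - i) (by omega) w
              rw [mul_assoc]
              refine mul_le_mul_of_nonneg_left ?_ (Nat.cast_nonneg _)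
              exact mul_le_mul h7 h8 (norm_nonneg _) (by positivity)
          _ = 2 ^ j * ((1 + C * η) * K * η) := by
              rw [← Finset.sum_mul]
              congr 1
              have := Nat.sum_range_choose j
              exact_mod_cast this
          _ ≤ 2 ^ n * ((1 + C * η) * K * η) := by
              refine mul_le_mul_of_nonneg_right ?_ (by positivity)
              exact pow_le_pow_right₀ (by norm_num) hjn
      rw [← norm_iteratedFDeriv_fderiv, comp_fderiv u v hu hv]
      have h9 : ContDiff ℝ ∞ (fun w => (ContinuousLinearMap.compL ℝ ℂ ℂ V)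
          (fderiv ℝ v (w + u w)) (fderiv ℝ u w)) := hg.clm_comp hu'
      have h10 : iteratedFDeriv ℝ j (fun w => fderiv ℝ v (w + u w) +
          (ContinuousLinearMap.compL ℝ ℂ ℂ V) (fderiv ℝ v (w + u w)) (fderiv ℝ u w)) w =
          iteratedFDeriv ℝ j (fun w => fderiv ℝ v (w + u w)) w +
          iteratedFDeriv ℝ j (fun w => (ContinuousLinearMap.compL ℝ ℂ ℂ V)
            (fderiv ℝ v (w + u w)) (fderiv ℝ u w)) w :=
        iteratedFDeriv_add_apply ((hg.of_le (by exact_mod_cast le_top)).contDiffAt)
          ((h9.of_le (by exact_mod_cast le_top)).contDiffAt)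
      rw [h10]
      refine (norm_add_le _ _).trans ((add_le_add (h5 j hjn w) h6).trans ?_)
      have e1 : (1 + C * η) * K + 2 ^ n * ((1 + C * η) * K * η) =
          (1 + (C + 2 ^ n) * η + C * 2 ^ n * η * η) * K := by ring
      have e2 : (1 + (C + 2 ^ n + C * 2 ^ n * B) * η) * K =
          (1 + (C + 2 ^ n) * η + C * 2 ^ n * η * B) * K := by ring
      rw [e1, e2]
      refine mul_le_mul_of_nonneg_right ?_ hK
      have h11 : C * 2 ^ n * η * η ≤ C * 2 ^ n * η * B :=
        mul_le_mul_of_nonneg_left hηB (by positivity)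
      linarith

theorem exists_comp_bound (n : ℕ) (b : ℝ) : ∃ C : ℝ, 0 ≤ C ∧
    ∀ (L : List (Equiv.Perm ℂ)) (η : ℝ), 0 ≤ η →
      (∀ A ∈ L, ContDiff ℝ ∞ A ∧
        ∀ j ≤ n, ∀ w, ‖iteratedFDeriv ℝ j (fun w => A w - w) w‖ ≤ η) →
      L.length * η ≤ b → ContDiff ℝ ∞ L.prod ∧
        ∀ j ≤ n, ∀ w, ‖iteratedFDeriv ℝ j (fun w => L.prod w - w) w‖ ≤ C * (L.length * η) := by
  obtain ⟨C, hC, hcomp⟩ := comp_small |b| (abs_nonneg b) n
  refine ⟨Real.exp (C * |b|), (Real.exp_pos _).le, ?_⟩
  intro L η hη hL hb
  rcases Nat.eq_zero_or_pos L.length with h0 | hpos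
  · have hnil : L = [] := List.length_eq_zero_iff.mp h0
    subst hnil
    refine ⟨contDiff_id, fun j _ w => ?_⟩
    have e1 : (fun w : ℂ => (([] : List (Equiv.Perm ℂ)).prod) w - w) = fun _ => (0 : ℂ) := by
      funext w
      show w - w = 0
      rw [sub_self]
    rw [e1]
    have e2 : iteratedFDeriv ℝ j (fun _ : ℂ => (0 : ℂ)) w = 0 := by
      rw [iteratedFDeriv_fun_zero]
      rfl
    rw [e2, norm_zero]
    positivity
  · have hηb : η ≤ |b| := by
      have h1 : (1 : ℝ) ≤ L.length := by exact_mod_cast hpos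
      have h2 : η ≤ L.length * η := by nlinarith
      exact h2.trans (hb.trans (le_abs_self b))
    have key : ∀ L : List (Equiv.Perm ℂ), (∀ A ∈ L, ContDiff ℝ ∞ A ∧
        ∀ j ≤ n, ∀ w, ‖iteratedFDeriv ℝ j (fun w => A w - w) w‖ ≤ η) →
        ContDiff ℝ ∞ L.prod ∧ ∀ j ≤ n, ∀ w,
          ‖iteratedFDeriv ℝ j (fun w => L.prod w - w) w‖ ≤
            L.length * η * (1 + C * η) ^ L.length := by
      intro L
      induction L using List.reverseRecOn with
      | nil =>
        intro _
        refine ⟨contDiff_id, fun j _ w => ?_⟩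
        have e1 : (fun w : ℂ => (([] : List (Equiv.Perm ℂ)).prod) w - w) = fun _ => (0 : ℂ) := by
          funext w
          show w - w = 0
          rw [sub_self]
        rw [e1]
        have e2 : iteratedFDeriv ℝ j (fun _ : ℂ => (0 : ℂ)) w = 0 := by
          rw [iteratedFDeriv_fun_zero]
          rfl
        rw [e2, norm_zero]
        simp
      | append_singleton l A ih =>
        intro hl
        obtain ⟨hs, hbd⟩ := ih fun A' hA' => hl A' (List.mem_append_left _ hA')
        obtain ⟨hA, hAb⟩ := hl A (by simp)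
        have hprod : ∀ w, (l ++ [A]).prod w = l.prod (A w) := by
          intro w
          rw [List.prod_append, List.prod_singleton, Equiv.Perm.mul_apply]
        have hfun : ((l ++ [A]).prod : ℂ → ℂ) = (l.prod : ℂ → ℂ) ∘ (A : ℂ → ℂ) := by
          funext w
          exact hprod w
        refine ⟨by rw [hfun]; exact hs.comp hA, fun j hj w => ?_⟩
        have hu : ContDiff ℝ ∞ (fun w => A w - w) := hA.sub contDiff_id
        have hv : ContDiff ℝ ∞ (fun w => l.prod w - w) := hs.sub contDiff_id
        have e1 : (fun w => (l ++ [A]).prod w - w) =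
            fun w => (fun w => l.prod w - w) (w + (fun w => A w - w) w) + (A w - w) := by
          funext w
          rw [hprod w]
          have : w + (A w - w) = A w := by ring
          simp only [this]
          ring
        have hK : (0 : ℝ) ≤ l.length * η * (1 + C * η) ^ l.length := by positivity
        have h3 := hcomp ℂ (fun w => A w - w) (fun w => l.prod w - w) η _ hu hv hη hηb hK hAb hbd
          j hj w
        have hc : ContDiff ℝ ∞ (fun w => (fun w => l.prod w - w) (w + (fun w => A w - w) w)) :=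
          hv.comp (contDiff_id.add hu)
        have e2 : iteratedFDeriv ℝ j (fun w => (fun w => l.prod w - w) (w + (fun w => A w - w) w) +
            (A w - w)) w = iteratedFDeriv ℝ j (fun w => (fun w => l.prod w - w)
              (w + (fun w => A w - w) w)) w + iteratedFDeriv ℝ j (fun w => A w - w) w :=
          iteratedFDeriv_add_apply ((hc.of_le (by exact_mod_cast le_top)).contDiffAt)
            ((hu.of_le (by exact_mod_cast le_top)).contDiffAt)
        rw [e1, e2]
        refine (norm_add_le _ _).trans ((add_le_add h3 (hAb j hj w)).trans ?_)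
        rw [List.length_append, List.length_singleton]
        push_cast
        have h5 : (1 : ℝ) ≤ (1 + C * η) ^ (l.length + 1) := by
          apply one_le_pow₀
          have : 0 ≤ C * η := by positivity
          linarith
        have h6 : η ≤ η * (1 + C * η) ^ (l.length + 1) := by nlinarith
        have h7 : (1 + C * η) * (l.length * η * (1 + C * η) ^ l.length) =
            l.length * η * (1 + C * η) ^ (l.length + 1) := by
          rw [pow_succ]; ring
        rw [h7]
        nlinarith
    obtain ⟨h1, h2⟩ := key L hL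
    refine ⟨h1, fun j hj w => (h2 j hj w).trans ?_⟩
    have h3 : (1 + C * η) ^ L.length ≤ Real.exp (C * |b|) := by
      have h4 : 1 + C * η ≤ Real.exp (C * η) := by
        rw [add_comm]
        exact Real.add_one_le_exp _
      calc (1 + C * η) ^ L.length ≤ Real.exp (C * η) ^ L.length :=
            pow_le_pow_left₀ (by positivity) h4 _
        _ = Real.exp (C * (L.length * η)) := by
            rw [← Real.exp_nat_mul]
            congr 1
            ring
        _ ≤ Real.exp (C * |b|) := by
            apply Real.exp_le_exp.mpr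
            exact mul_le_mul_of_nonneg_left (hb.trans (le_abs_self b)) hC
    have h5 : (0 : ℝ) ≤ L.length * η := by positivity
    nlinarith

end Pool.Agent.H27G
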