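import Pool.Agent.H27G.Glue

/-!
# Translated copies of the flow and the local slow move
-/

set_option autoImplicit false

open scoped ContDiff
open Pool.Agent.H45F Pool.Agent.H75T Pool.Agent.H27F

namespace Pool.Agent.H27G

variable {φ : ℝ → ℂ → ℂ} {Ω : Set ℂ}

theorem th_out (hφ : TFlow φ) (s : ℝ) {w : ℂ} (hw : 3 / 10 ≤ ‖w‖) : th φ s w = w := by
  rcases le_or_gt (1 / 16) ‖(w + 2)⁻¹ - 1 / 2‖ with h | h
  · unfold th Tf
    rw [hφ.tight s _ h, inv_inv, add_sub_cancel_right]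
  · exfalso
    obtain ⟨z, hz⟩ : ∃ z : ℂ, z = (w + 2)⁻¹ := ⟨_, rfl⟩
    rw [← hz] at h
    have hn : 7 / 16 ≤ ‖z‖ := by
      have h1 := norm_sub_norm_le (1 / 2 : ℂ) z
      have h2 : ‖(1 / 2 : ℂ)‖ = 1 / 2 := by norm_num
      rw [norm_sub_rev] at h1
      linarith
    have hz0 : z ≠ 0 := by
      intro h0
      rw [h0, norm_zero] at hn
      norm_num at hn
    have hw2 : w + 2 ≠ 0 := by
      intro h0
      rw [h0, inv_zero] at hz
      exact hz0 hz
    have e : w * z = -2 * (z - 1 / 2) := by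
      have h1 : (w + 2) * z = 1 := by rw [hz, mul_inv_cancel₀ hw2]
      linear_combination h1
    have e2 : ‖w‖ * ‖z‖ = 2 * ‖z - 1 / 2‖ := by
      rw [← norm_mul, e, norm_mul, norm_neg]
      norm_num
    have h3 : 3 / 10 * (7 / 16) ≤ ‖w‖ * ‖z‖ :=
      mul_le_mul hw hn (by norm_num) (norm_nonneg _)
    linarith

theorem th_in (hφ : TFlow φ) (s : ℝ) {w : ℂ} (hw : ‖w‖ < 3 / 10) : ‖th φ s w‖ < 3 / 10 := by
  by_contra hc
  rw [not_lt] at hc
  have h1 := th_out hφ (-s) hc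
  rw [← th_add hφ.toNFlow, neg_add_cancel, th_zero hφ.toNFlow] at h1
  rw [← h1] at hc
  linarith

theorem tr_eq (hφ : NFlow φ) (P : ℂ) (s : ℝ) (w : ℂ) :
    tr P (thP hφ s) w = w + Dl φ s (w - (P - 2)) := by
  rw [tr_apply, thP_apply, Dl_eq]
  unfold th
  rw [show w - P + 2 = w - (P - 2) by ring]
  ring

theorem Dl_smooth_one (hφ : NFlow φ) (s : ℝ) : ContDiff ℝ ∞ (Dl φ s) :=
  (Dl_smooth hφ).comp (contDiff_const.prodMk contDiff_id)

theorem tr_smooth (hφ : NFlow φ) (P : ℂ) (s : ℝ) : ContDiff ℝ ∞ (tr P (thP hφ s)) := by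
  have h : (tr P (thP hφ s) : ℂ → ℂ) = fun w => w + Dl φ s (w - (P - 2)) := by
    funext w
    exact tr_eq hφ P s w
  rw [h]
  exact contDiff_id.add ((Dl_smooth_one hφ s).comp (contDiff_id.sub contDiff_const))

theorem exists_tr_bound (hφ : NFlow φ) (n : ℕ) (M : ℝ) (hM : 0 ≤ M) :
    ∃ C : ℝ, 0 ≤ C ∧ ∀ s : ℝ, |s| ≤ M → ∀ (P w : ℂ),
      ‖iteratedFDeriv ℝ n (fun w => tr P (thP hφ s) w - w) w‖ ≤ C * |s| := by
  obtain ⟨C, hC, h⟩ := exists_iter_bound hφ n M hM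
  refine ⟨C, hC, fun s hs P w => ?_⟩
  have e : (fun w => tr P (thP hφ s) w - w) = fun w => Dl φ s (w - (P - 2)) := by
    funext w
    rw [tr_eq, add_sub_cancel_left]
  rw [e, iteratedFDeriv_comp_sub]
  exact h s hs _

theorem cpy_mem (hφ : TFlow φ) {P : ℂ} (hP : ∀ w, ‖w - P‖ < 3 / 10 → w ∈ Ω) (a : Dec) :
    cpy hφ.toNFlow P a ∈ FamG Ω := by
  intro k w hw
  have h1 : 3 / 10 ≤ ‖w - P‖ := by
    by_contra hc
    exact hw (hP w (not_le.1 hc))
  unfold cpy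
  rw [tr_apply, thP_apply, th_out hφ _ h1, add_sub_cancel]

theorem cpy_Dcy (hφ : NFlow φ) (P : ℂ) (a : Dec) : Dcy (cpy hφ P a) := by
  refine ⟨fun k => tr_smooth hφ P _, fun n => ?_⟩
  obtain ⟨C, r, hr, hr1, h⟩ := a.2
  have hC : 0 ≤ C := by
    have := h 0
    simp only [pow_zero, mul_one] at this
    exact le_trans (abs_nonneg _) this
  obtain ⟨D, hD, hb⟩ := exists_tr_bound hφ n C hC
  refine ⟨D * C, r, hr, hr1, fun k w => ?_⟩
  have h1 : |a.1 k| ≤ C := (h k).trans (mul_le_of_le_one_right hC (pow_le_one₀ hr.le hr1.le))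
  refine (hb (a.1 k) h1 P w).trans ?_
  rw [mul_assoc]
  exact mul_le_mul_of_nonneg_left (h k) hD

theorem cpy_neg (hφ : NFlow φ) (P : ℂ) (a : Dec) : cpy hφ P (-a) = (cpy hφ P a)⁻¹ := by
  funext k
  change tr P (thP hφ (-(a.1 k))) = (tr P (thP hφ (a.1 k)))⁻¹
  rw [thP_neg, map_inv]

theorem cpy_add (hφ : NFlow φ) (P : ℂ) (a b : Dec) :
    cpy hφ P (a + b) = cpy hφ P a * cpy hφ P b := by
  funext k
  change tr P (thP hφ (a.1 k + b.1 k)) = tr P (thP hφ (a.1 k)) * tr P (thP hφ (b.1 k))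
  rw [thP_add, map_mul]

/-- a map which is the translation by `d` near `P` conjugates the copy at `P` to the copy at
`P + d` -/
theorem conj_tr (hφ : TFlow φ) (T : Equiv.Perm ℂ) (P d : ℂ)
    (hT : ∀ w, ‖w - P‖ < 3 / 10 → T w = w + d) (s : ℝ) :
    T * tr P (thP hφ.toNFlow s) * T⁻¹ = tr (P + d) (thP hφ.toNFlow s) := by
  rw [mul_inv_eq_iff_eq_mul]
  ext w
  rw [Equiv.Perm.mul_apply, Equiv.Perm.mul_apply, tr_apply, tr_apply, thP_apply, thP_apply]
  rcases lt_or_ge ‖w - P‖ (3 / 10) with h | h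
  · have h1 := th_in hφ s h
    rw [hT w h, hT (P + th φ s (w - P)) (by rwa [add_sub_cancel_left]),
      show w + d - (P + d) = w - P by ring]
    ring
  · have h1 : 3 / 10 ≤ ‖T w - (P + d)‖ := by
      by_contra hc
      rw [not_le] at hc
      have h2 : ‖T w - d - P‖ < 3 / 10 := by
        rwa [show T w - d - P = T w - (P + d) by ring]
      have h3 := hT _ h2
      rw [sub_add_cancel] at h3
      have h4 := T.injective h3
      rw [h4] at h2
      linarith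
    rw [th_out hφ s h, th_out hφ s h1, add_sub_cancel, add_sub_cancel]

theorem cpy_two (hφ : NFlow φ) (a : Dec) (z : ℂ) :
    (sumFlow hφ (Multiplicative.ofAdd a) : Equiv.Perm ℂ) z = (Wb (cpy hφ 2 a) z⁻¹)⁻¹ := by
  rw [sumFlow_apply]
  unfold Pool.Agent.H27F.W Wb cpy
  congr 3
  funext k
  rw [tr_eq, add_sub_cancel_left, sub_self, sub_zero]

theorem Wb_shR (hφ : TFlow φ) (P : ℂ) (a : Dec) (w : ℂ) :
    Wb (cpy hφ.toNFlow P (shR a)) w = Wb (cpy hφ.toNFlow (P + 4) a) w := by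
  unfold Wb
  congr 1
  set f : ℕ → ℂ := fun k => cpy hφ.toNFlow P (shR a) k (w - 4 * k) - (w - 4 * k) with hf
  have h0 : f 0 = 0 := by
    simp only [hf, cpy]
    rw [shR_zero, thP_zero, map_one, Equiv.Perm.one_apply, sub_self]
  have hs : Function.support f ⊆ Set.range Nat.succ := by
    intro k hk
    rcases k with _ | k
    · exact absurd h0 hk
    · exact ⟨k, rfl⟩
  rw [← Nat.succ_injective.tsum_eq hs]
  refine tsum_congr fun k => ?_
  simp only [hf, cpy]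
  rw [Nat.succ_eq_add_one, shR_succ, tr_eq, tr_eq, add_sub_cancel_left, add_sub_cancel_left]
  congr 1
  push_cast
  ring

theorem Wb_one0 (hφ : NFlow φ) (P : ℂ) (x : ℝ) (w : ℂ) :
    Wb (cpy hφ P (one0 x)) w = tr P (thP hφ x) w := by
  unfold Wb
  rw [tsum_eq_single 0]
  · simp only [cpy]
    rw [one0_zero, Nat.cast_zero, mul_zero, sub_zero, add_sub_cancel]
  · intro k hk
    obtain ⟨k, rfl⟩ := Nat.exists_eq_succ_of_ne_zero hk
    simp only [cpy]
    rw [Nat.succ_eq_add_one, one0_succ, thP_zero, map_one, Equiv.Perm.one_apply, sub_self]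

end Pool.Agent.H27G
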