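import Pool.Agent.H27G.Move
import Pool.Agent.H27G.Alg

/-!
# Lifts of sequences with disjoint supports commute
-/

set_option autoImplicit false

open scoped ContDiff commutatorElement
open Pool.Agent.H45F Pool.Agent.H75T Pool.Agent.H27F

namespace Pool.Agent.H27G

namespace Cr

/-- `A` and `B` are equal naturals if a real number is close to both -/
theorem nat_eq {r lo hi : ℝ} (h : hi - lo < 4) {j k : ℕ} (h1 : lo ≤ r - 4 * j) (h2 : r - 4 * j ≤ hi)
    (h3 : lo ≤ r - 4 * k) (h4 : r - 4 * k ≤ hi) : j = k := by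
  by_contra hne
  rcases lt_or_gt_of_ne hne with h5 | h5
  · have : (j : ℝ) + 1 ≤ k := by exact_mod_cast h5
    linarith
  · have : (k : ℝ) + 1 ≤ j := by exact_mod_cast h5
    linarith

theorem re_sub (w : ℂ) (k : ℕ) : (w - 4 * k).re = w.re - 4 * k := by simp

theorem im_sub (w : ℂ) (k : ℕ) : (w - 4 * k).im = w.im := by simp

theorem re_add (w : ℂ) (k : ℕ) : (w + 4 * k).re = w.re + 4 * k := by simp

theorem im_add (w : ℂ) (k : ℕ) : (w + 4 * k).im = w.im := by simp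

theorem abs_re_of {w P : ℂ} (h : ‖w - P‖ < 3 / 10) : |w.re - P.re| < 3 / 10 := by
  have h1 := Complex.abs_re_le_norm (w - P)
  rw [Complex.sub_re] at h1
  exact lt_of_le_of_lt h1 h

theorem abs_im_of {w P : ℂ} (h : ‖w - P‖ < 3 / 10) : |w.im - P.im| < 3 / 10 := by
  have h1 := Complex.abs_im_le_norm (w - P)
  rw [Complex.sub_im] at h1
  exact lt_of_le_of_lt h1 h

/-- small discs -/
theorem reg_ball {P : ℂ} (hP : 2 ≤ P.re) : Reg {w : ℂ | ‖w - P‖ < 3 / 10} where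
  bdd := by
    refine ⟨‖P‖ + 1, fun w hw => ?_⟩
    have h1 : ‖w - P‖ < 3 / 10 := hw
    have h2 := norm_sub_norm_le w P
    linarith
  low := by
    intro w hw k
    have h1 := abs_lt.1 (abs_re_of hw)
    have h2 := Complex.re_le_norm (w + 4 * k)
    rw [re_add] at h2
    have h3 : (0 : ℝ) ≤ k := Nat.cast_nonneg k
    linarith [h1.1]
  disj := by
    intro w j k hj hk
    have h1 := abs_lt.1 (abs_re_of hj)
    have h2 := abs_lt.1 (abs_re_of hk)
    rw [re_sub] at h1 h2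
    exact nat_eq (r := w.re) (lo := P.re - 3 / 10) (hi := P.re + 3 / 10) (by linarith)
      (by linarith [h1.1]) (by linarith [h1.2]) (by linarith [h2.1]) (by linarith [h2.2])

variable {φ ψ : ℝ → ℂ → ℂ}

theorem cpy_one (hφ : NFlow φ) (P : ℂ) {a : Dec} {k : ℕ} (h : a.1 k = 0) : cpy hφ P a k = 1 := by
  unfold cpy
  rw [h, thP_zero, map_one]

/-- the copies with base point `P` -/
noncomputable def cg (hφ : TFlow φ) {P : ℂ} (hP : 2 ≤ P.re) : Multiplicative Dec →* Equiv.Perm ℂ :=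
  (glue (reg_ball hP)).comp
    { toFun := fun a => ⟨cpy hφ.toNFlow P (Multiplicative.toAdd a), cpy_mem hφ (fun _ hw => hw) _⟩
      map_one' := by
        apply Subtype.ext
        funext k
        exact cpy_one hφ.toNFlow P rfl
      map_mul' := fun a b => Subtype.ext (cpy_add hφ.toNFlow P _ _) }

theorem cg_apply (hφ : TFlow φ) {P : ℂ} (hP : 2 ≤ P.re) (a : Dec) (z : ℂ) :
    cg hφ hP (Multiplicative.ofAdd a) z = (Wb (cpy hφ.toNFlow P a) z⁻¹)⁻¹ := rfl

theorem cg_fix (hφ : TFlow φ) {P : ℂ} (hP : 2 ≤ P.re) (a : Dec) {z : ℂ}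
    (h : ∀ k : ℕ, ‖z⁻¹ - 4 * k - P‖ < 3 / 10 → a.1 k = 0) :
    cg hφ hP (Multiplicative.ofAdd a) z = z :=
  glue_fix (reg_ball hP) _ fun k hk => cpy_one hφ.toNFlow P (h k hk)

theorem two_le : (2 : ℝ) ≤ ((2 : ℂ)).re := by norm_num

theorem sum_eq (hφ : TFlow φ) (a : Dec) :
    (sumFlow hφ.toNFlow (Multiplicative.ofAdd a) : Equiv.Perm ℂ) =
      cg hφ two_le (Multiplicative.ofAdd a) := by
  ext1 z
  exact cpy_two hφ.toNFlow a z

/-- two copies in disjoint rows commute -/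
theorem cg_comm (hφ : TFlow φ) (hψ : TFlow ψ) {P : ℂ} (hP : 2 ≤ P.re) (hP' : 4 ≤ P.im) (a b : Dec) :
    cg hφ hP (Multiplicative.ofAdd a) * cg hψ two_le (Multiplicative.ofAdd b) =
      cg hψ two_le (Multiplicative.ofAdd b) * cg hφ hP (Multiplicative.ofAdd a) := by
  refine perm_comm_of_fix {z : ℂ | ∃ k : ℕ, ‖z⁻¹ - 4 * k - P‖ < 3 / 10} _ _ ?_ ?_
  · intro z hz
    refine cg_fix hφ hP a fun k hk => ?_
    exact absurd ⟨k, hk⟩ hz
  · rintro z ⟨k, hk⟩
    refine cg_fix hψ two_le b fun j hj => ?_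
    exfalso
    have h1 := abs_lt.1 (abs_im_of hk)
    have h2 := abs_lt.1 (abs_im_of hj)
    rw [im_sub] at h1 h2
    have h3 : ((2 : ℂ)).im = 0 := by norm_num
    rw [h3] at h2
    linarith [h1.1, h2.2]

/-! ### corridors -/

theorem div4I (w P : ℂ) : ((w - P) / (4 * Complex.I)).re = (w.im - P.im) / 4 ∧
    ((w - P) / (4 * Complex.I)).im = -((w.re - P.re) / 4) := by
  have h : (w - P) / (4 * Complex.I) = -(Complex.I * (w - P)) / 4 := by
    rw [div_eq_div_iff (by simp) (by norm_num)]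
    linear_combination (4 * (w - P)) * Complex.I_sq
  have e : (4 : ℂ) = ((4 : ℝ) : ℂ) := by norm_num
  rw [h, e]
  constructor
  · rw [Complex.div_ofReal_re]
    simp
  · rw [Complex.div_ofReal_im]
    simp
    ring

theorem cor1 {P w : ℂ} (hw : w ∈ Cor P (4 * Complex.I)) :
    P.re - 4 / 5 ≤ w.re ∧ w.re ≤ P.re + 4 / 5 ∧ P.im - 14 / 5 ≤ w.im ∧ w.im ≤ P.im + 34 / 5 := by
  obtain ⟨h1, h2⟩ := hw
  rw [(div4I w P).1, abs_le] at h1
  rw [(div4I w P).2, abs_neg, abs_le] at h2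
  refine ⟨?_, ?_, ?_, ?_⟩
  · linarith [h2.1]
  · linarith [h2.2]
  · linarith [h1.1]
  · linarith [h1.2]

theorem reg_cor1 {P : ℂ} (hP : P.re = 2) : Reg (Cor P (4 * Complex.I)) where
  bdd := by
    refine ⟨|P.im| + 20, fun w hw => ?_⟩
    have h1 := cor1 hw
    have h2 := Complex.norm_le_abs_re_add_abs_im w
    rw [hP] at h1
    have h3 : |w.re| ≤ 3 := abs_le.2 ⟨by linarith [h1.1], by linarith [h1.2.1]⟩
    have h4 : |w.im| ≤ |P.im| + 7 :=
      abs_le.2 ⟨by linarith [h1.2.2.1, neg_abs_le P.im], by linarith [h1.2.2.2, le_abs_self P.im]⟩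
    linarith
  low := by
    intro w hw k
    have h1 := cor1 hw
    have h2 := Complex.re_le_norm (w + 4 * k)
    rw [re_add] at h2
    have h3 : (0 : ℝ) ≤ k := Nat.cast_nonneg k
    rw [hP] at h1
    linarith [h1.1]
  disj := by
    intro w j k hj hk
    have h1 := cor1 hj
    have h2 := cor1 hk
    rw [re_sub, hP] at h1 h2
    exact nat_eq (r := w.re) (lo := 2 - 4 / 5) (hi := 2 + 4 / 5) (by norm_num)
      h1.1 h1.2.1 h2.1 h2.2.1

theorem div44 (w P : ℂ) : ((w - P) / (-4 + 4 * Complex.I)).re = ((w.im - P.im) - (w.re - P.re)) / 8 ∧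
    ((w - P) / (-4 + 4 * Complex.I)).im = -(((w.im - P.im) + (w.re - P.re)) / 8) := by
  have h0 : (-4 + 4 * Complex.I : ℂ) ≠ 0 := by
    intro h
    have := congrArg Complex.re h
    norm_num at this
  have h : (w - P) / (-4 + 4 * Complex.I) = -((1 + Complex.I) * (w - P)) / 8 := by
    rw [div_eq_div_iff h0 (by norm_num)]
    linear_combination (4 * (w - P)) * Complex.I_sq
  have e : (8 : ℂ) = ((8 : ℝ) : ℂ) := by norm_num
  rw [h, e]
  constructor
  · rw [Complex.div_ofReal_re]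
    simp
  · rw [Complex.div_ofReal_im]
    simp
    ring

/-- base points of the upper rows -/
noncomputable def P1 : ℂ := 2 + 4 * Complex.I

theorem P1_re : P1.re = 2 := by simp [P1]

theorem P1_im : P1.im = 4 := by simp [P1]

theorem cor3 {w : ℂ} (hw : w ∈ Cor (P1 + 4) (-4 + 4 * Complex.I)) :
    42 / 5 ≤ w.re + w.im ∧ w.re + w.im ≤ 58 / 5 ∧ 2 / 5 ≤ w.im ∧ w.im ≤ 20 := by
  obtain ⟨h1, h2⟩ := hw
  have e1 : (P1 + 4).re = 6 := by rw [Complex.add_re, P1_re]; norm_num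
  have e2 : (P1 + 4).im = 4 := by rw [Complex.add_im, P1_im]; norm_num
  rw [(div44 w _).1, e1, e2, abs_le] at h1
  rw [(div44 w _).2, e1, e2, abs_neg, abs_le] at h2
  refine ⟨?_, ?_, ?_, ?_⟩
  · linarith [h2.1]
  · linarith [h2.2]
  · linarith [h1.1, h2.1]
  · linarith [h1.2, h2.2]

theorem reg_cor3 : Reg (Cor (P1 + 4) (-4 + 4 * Complex.I)) where
  bdd := by
    refine ⟨100, fun w hw => ?_⟩
    have h1 := cor3 hw
    have h2 := Complex.norm_le_abs_re_add_abs_im w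
    have h3 : |w.re| ≤ 30 := abs_le.2 ⟨by linarith [h1.1, h1.2.2.2], by linarith [h1.2.1, h1.2.2.1]⟩
    have h4 : |w.im| ≤ 20 := abs_le.2 ⟨by linarith [h1.2.2.1], h1.2.2.2⟩
    linarith
  low := by
    intro w hw k
    have h1 := cor3 hw
    have h2 := Complex.re_le_norm (w + 4 * k)
    have h3 := Complex.im_le_norm (w + 4 * k)
    rw [re_add] at h2
    rw [im_add] at h3
    have h4 : (0 : ℝ) ≤ k := Nat.cast_nonneg k
    linarith [h1.1]
  disj := by
    intro w j k hj hk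
    have h1 := cor3 hj
    have h2 := cor3 hk
    rw [re_sub, im_sub] at h1 h2
    exact nat_eq (r := w.re + w.im) (lo := 42 / 5) (hi := 58 / 5) (by norm_num)
      (by linarith [h1.1]) (by linarith [h1.2.1]) (by linarith [h2.1]) (by linarith [h2.2.1])

theorem norm4I : (4 : ℝ) ≤ ‖(4 * Complex.I : ℂ)‖ := by simp

theorem norm44 : (4 : ℝ) ≤ ‖(-4 + 4 * Complex.I : ℂ)‖ := by
  have h := Complex.abs_im_le_norm (-4 + 4 * Complex.I : ℂ)
  have e : (-4 + 4 * Complex.I : ℂ).im = 4 := by simp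
  rw [e, abs_of_pos (by norm_num)] at h
  exact h

/-! ### the chart -/

theorem near_inv {z : ℂ} (h : ‖z⁻¹ - P1‖ < 3 / 10) : ‖z - P1⁻¹‖ ≤ 1 / 50 := by
  have hP : P1 ≠ 0 := by
    intro h0
    have := P1_re
    rw [h0, Complex.zero_re] at this
    norm_num at this
  have hPn : (4 : ℝ) < ‖P1‖ := by
    have h1 : ‖P1‖ ^ 2 = 20 := by
      rw [← Complex.normSq_eq_norm_sq, Complex.normSq_apply, P1_re, P1_im]; norm_num
    nlinarith [norm_nonneg P1]
  have hPn' : (22 / 5 : ℝ) < ‖P1‖ := by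
    have h1 : ‖P1‖ ^ 2 = 20 := by
      rw [← Complex.normSq_eq_norm_sq, Complex.normSq_apply, P1_re, P1_im]; norm_num
    nlinarith [norm_nonneg P1]
  have hz : z ≠ 0 := by
    rintro rfl
    rw [inv_zero, zero_sub, norm_neg] at h
    linarith
  have hzn : (41 / 10 : ℝ) < ‖z⁻¹‖ := by
    have h1 := norm_sub_norm_le P1 z⁻¹
    rw [norm_sub_rev] at h1
    linarith
  have e : z - P1⁻¹ = -(z⁻¹ - P1) * (z * P1⁻¹) := by
    field_simp
    ring
  have h2 : ‖z‖ < 10 / 41 := by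
    rw [norm_inv] at hzn
    have h3 : 0 < ‖z‖ := norm_pos_iff.2 hz
    rw [lt_inv_comm₀ (by norm_num) h3] at hzn
    calc ‖z‖ < (41 / 10 : ℝ)⁻¹ := hzn
      _ = 10 / 41 := by norm_num
  have h4 : ‖P1⁻¹‖ < 5 / 22 := by
    rw [norm_inv]
    calc ‖P1‖⁻¹ < (22 / 5 : ℝ)⁻¹ := inv_strictAnti₀ (by norm_num) hPn'
      _ = 5 / 22 := by norm_num
  rw [e, norm_mul, norm_neg, norm_mul]
  have h5 : ‖z‖ * ‖P1⁻¹‖ ≤ 10 / 41 * (5 / 22) := mul_le_mul h2.le h4.le (norm_nonneg _) (by norm_num)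
  have h6 : ‖z⁻¹ - P1‖ * (‖z‖ * ‖P1⁻¹‖) ≤ 3 / 10 * (10 / 41 * (5 / 22)) :=
    mul_le_mul h.le h5 (by positivity) (by norm_num)
  refine h6.trans ?_
  norm_num

theorem P1_inv : P1⁻¹.re = 1 / 10 ∧ P1⁻¹.im = -(1 / 5) := by
  constructor
  · rw [Complex.inv_re, Complex.normSq_apply, P1_re, P1_im]; norm_num
  · rw [Complex.inv_im, Complex.normSq_apply, P1_re, P1_im]; norm_num

theorem im_inv_big {z : ℂ} (h : z ∈ Metric.ball P1⁻¹ (1 / 20)) : 1 < (z⁻¹).im := by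
  rw [Metric.mem_ball, dist_eq_norm] at h
  have h1 := lt_of_le_of_lt (Complex.abs_re_le_norm (z - P1⁻¹)) h
  have h2 := lt_of_le_of_lt (Complex.abs_im_le_norm (z - P1⁻¹)) h
  rw [Complex.sub_re, P1_inv.1, abs_lt] at h1
  rw [Complex.sub_im, P1_inv.2, abs_lt] at h2
  have h3 : 0 < Complex.normSq z := by
    rw [Complex.normSq_apply]
    nlinarith [mul_self_nonneg z.im, h1.1, mul_self_nonneg z.re]
  rw [Complex.inv_im, lt_div_iff₀ h3, Complex.normSq_apply]
  nlinarith [h1.1, h1.2, h2.1, h2.2]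

end Cr

open Cr

theorem cross {E : Type*} [Group E] (p : E →* DiffC) (hp : Function.Surjective p)
    (hc : p.ker ≤ Subgroup.center E) (hE : commutator E = ⊤) {φ ψ : ℝ → ℂ → ℂ}
    (hφ : TFlow φ) (hψ : TFlow ψ) (s t : Dec) (hst : ∀ k, s.1 k = 0 ∨ t.1 k = 0) (x y : E)
    (hx : p x = sumFlow hφ.toNFlow (Multiplicative.ofAdd s))
    (hy : p y = sumFlow hψ.toNFlow (Multiplicative.ofAdd t)) : ⁅x, y⁆ = 1 := by
  have hyc : ((p y : DiffC) : Equiv.Perm ℂ) = cg hψ two_le (Multiplicative.ofAdd t) := by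
    rw [hy, sum_eq hψ]
  have hyf : ∀ z : ℂ, (∀ k : ℕ, ‖z⁻¹ - 4 * k - 2‖ < 3 / 10 → t.1 k = 0) →
      ((p y : DiffC) : Equiv.Perm ℂ) z = z := by
    intro z hz
    rw [hyc]
    exact cg_fix hψ two_le t hz
  have hyi : ∀ z : ℂ, 3 / 10 ≤ (z⁻¹).im → ((p y : DiffC) : Equiv.Perm ℂ) z = z := by
    intro z hz
    refine hyf z fun k hk => ?_
    have h2 := abs_lt.1 (abs_im_of hk)
    rw [im_sub] at h2
    have h3 : ((2 : ℂ)).im = 0 := by norm_num
    rw [h3] at h2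
    linarith [h2.2]
  have hlift : ∀ {P : ℂ} (hP : 2 ≤ P.re) (a : Dec), ∃ x' : E,
      ((p x' : DiffC) : Equiv.Perm ℂ) = cg hφ hP (Multiplicative.ofAdd a) := by
    intro P hP a
    obtain ⟨f, hf⟩ := exists_copy hφ (reg_ball hP) (fun _ hw => hw) a
    obtain ⟨x', rfl⟩ := hp f
    exact ⟨x', by ext1 z; exact hf z⟩
  have huniq : ∀ x₁ x₂ : E, ((p x₁ : DiffC) : Equiv.Perm ℂ) = ((p x₂ : DiffC) : Equiv.Perm ℂ) →
      ⁅x₁, y⁆ = ⁅x₂, y⁆ := fun x₁ x₂ h => commutator_eq_of p hc (Subtype.ext h) rfl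
  have hP1 : 2 ≤ P1.re := P1_re.ge
  have hP1' : 4 ≤ P1.im := P1_im.ge
  have hP4 : 2 ≤ (P1 + 4).re := by rw [Complex.add_re, P1_re]; norm_num
  have hP8 : 2 ≤ (P1 + 4 * Complex.I).re := by rw [Complex.add_re, P1_re]; norm_num
  have hcen : ∀ (x' : E) (a : Dec),
      ((p x' : DiffC) : Equiv.Perm ℂ) = cg hφ hP1 (Multiplicative.ofAdd a) →
      ⁅x', y⁆ ∈ Subgroup.center E := by
    intro x' a h
    refine hc (comm_mem p hc (Subtype.ext ?_))
    rw [Subgroup.coe_mul, Subgroup.coe_mul, h, hyc]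
    exact cg_comm hφ hψ hP1 hP1' a t
  -- the first move
  have hm1 : ∀ x' : E, ((p x' : DiffC) : Equiv.Perm ℂ) = cg hφ hP1 (Multiplicative.ofAdd s) →
      ⁅x, y⁆ = ⁅x', y⁆ := by
    intro x' hx'
    refine slow_move p hp hc hφ (P := 2) (v := 4 * Complex.I) norm4I (reg_cor1 (by norm_num)) s y
      ?_ x x' ?_ ?_
    · intro z k hz hk
      refine hyf z fun j hj => ?_
      have h1 := cor1 hz
      have h2 := abs_lt.1 (abs_re_of hj)
      rw [re_sub] at h1 h2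
      have e2 : ((2 : ℂ)).re = 2 := by norm_num
      rw [e2] at h1 h2
      have h3 : j = k := nat_eq (r := (z⁻¹).re) (lo := 6 / 5) (hi := 14 / 5) (by norm_num)
        (by linarith [h2.1]) (by linarith [h2.2]) (by linarith [h1.1]) (by linarith [h1.2.1])
      rw [h3]
      exact (hst k).resolve_left hk
    · intro z
      rw [hx, sum_eq hφ]
      rfl
    · intro z
      rw [hx']
      rfl
  -- the second move
  have hm2 : ∀ (a : Dec) (x₁ x₂ : E),
      ((p x₁ : DiffC) : Equiv.Perm ℂ) = cg hφ hP1 (Multiplicative.ofAdd a) →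
      ((p x₂ : DiffC) : Equiv.Perm ℂ) = cg hφ hP8 (Multiplicative.ofAdd a) →
      ⁅x₁, y⁆ = ⁅x₂, y⁆ := by
    intro a x₁ x₂ h1 h2
    refine slow_move p hp hc hφ (P := P1) (v := 4 * Complex.I) norm4I (reg_cor1 P1_re) a y
      ?_ x₁ x₂ ?_ ?_
    · intro z k hz _
      refine hyi z ?_
      have h3 := (cor1 hz).2.2.1
      rw [im_sub, P1_im] at h3
      linarith
    · intro z
      rw [h1]
      rfl
    · intro z
      rw [h2]
      rfl
  -- the third move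
  have hm3 : ∀ (a : Dec) (x₁ x₂ : E),
      ((p x₁ : DiffC) : Equiv.Perm ℂ) = cg hφ hP4 (Multiplicative.ofAdd a) →
      ((p x₂ : DiffC) : Equiv.Perm ℂ) = cg hφ hP8 (Multiplicative.ofAdd a) →
      ⁅x₁, y⁆ = ⁅x₂, y⁆ := by
    intro a x₁ x₂ h1 h2
    have e : P1 + 4 + (-4 + 4 * Complex.I) = P1 + 4 * Complex.I := by ring
    refine slow_move p hp hc hφ (P := P1 + 4) (v := -4 + 4 * Complex.I) norm44 reg_cor3 a y
      ?_ x₁ x₂ ?_ ?_
    · intro z k hz _
      refine hyi z ?_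
      have h3 := (cor3 hz).2.2.1
      rw [im_sub] at h3
      linarith
    · intro z
      rw [h1]
      rfl
    · intro z
      rw [h2, e]
      rfl
  -- the shift
  have hsh : ∀ (a : Dec) (x₁ x₂ : E),
      ((p x₁ : DiffC) : Equiv.Perm ℂ) = cg hφ hP1 (Multiplicative.ofAdd a) →
      ((p x₂ : DiffC) : Equiv.Perm ℂ) = cg hφ hP1 (Multiplicative.ofAdd (shR a)) →
      ⁅x₁, y⁆ = ⁅x₂, y⁆ := by
    intro a x₁ x₂ h1 h2
    obtain ⟨x₃, h3⟩ := hlift hP8 a
    rw [hm2 a x₁ x₃ h1 h3]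
    symm
    refine hm3 a x₂ x₃ ?_ h3
    rw [h2]
    ext1 z
    rw [cg_apply, cg_apply, Wb_shR hφ]
  -- the value at a single disc
  have h1 : ∀ (c : ℝ) (x' : E),
      ((p x' : DiffC) : Equiv.Perm ℂ) = cg hφ hP1 (Multiplicative.ofAdd (one0 c)) → ⁅x', y⁆ = 1 := by
    intro c x' h
    rw [commutatorElement_eq_one_iff_mul_comm]
    have hchart : IsChart (Metric.ball (P1⁻¹ : ℂ) (1 / 20)) := isChart_ball _ (by norm_num)
    refine commute_of_chart p hp hc hE hchart _ _ ?_ ?_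
    · refine ⟨Metric.closedBall P1⁻¹ (1 / 50), isCompact_closedBall _ _,
        Metric.closedBall_subset_ball (by norm_num), fun z hz => ?_⟩
      rw [h]
      refine cg_fix hφ hP1 _ fun k hk => ?_
      rcases k with _ | k
      · exfalso
        apply hz
        rw [Metric.mem_closedBall, dist_eq_norm]
        refine near_inv ?_
        rwa [Nat.cast_zero, mul_zero, sub_zero] at hk
      · exact one0_succ c k
    · intro z hz
      exact hyi z (by linarith [im_inv_big hz])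
  obtain ⟨u, c, hu⟩ := exists_split s
  obtain ⟨xs, hxs⟩ := hlift hP1 s
  obtain ⟨xu, hxu⟩ := hlift hP1 u
  obtain ⟨xr, hxr⟩ := hlift hP1 (shR u)
  obtain ⟨xo, hxo⟩ := hlift hP1 (one0 c)
  rw [hm1 xs hxs]
  have e1 : ⁅xs * xr, y⁆ = ⁅xu * xo, y⁆ := by
    refine huniq _ _ ?_
    rw [map_mul, map_mul, Subgroup.coe_mul, Subgroup.coe_mul, hxs, hxr, hxu, hxo,
      ← map_mul (cg hφ hP1), ← map_mul (cg hφ hP1), ← ofAdd_add, ← ofAdd_add]
    congr 2
    conv_lhs => rw [hu]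
    abel
  rw [comm_mul_left (hcen xr _ hxr), comm_mul_left (hcen xo _ hxo), h1 c xo hxo, mul_one,
    hsh u xu xr hxu hxr] at e1
  exact mul_eq_right.1 e1

end Pool.Agent.H27G
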