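import Pool.Agent.H27F.Group

/-!
# Families of local diffeomorphisms near the translates `4 k`: definitions
-/

set_option autoImplicit false

open scoped ContDiff commutatorElement
open Pool.Agent.H45F Pool.Agent.H75T Pool.Agent.H27F

namespace Pool.Agent.H27G

/-- a smooth flow of the plane supported in the disc with center `1/2` and radius `1/16` -/
structure TFlow (φ : ℝ → ℂ → ℂ) : Prop extends NFlow φ where
  tight : ∀ t z, 1 / 16 ≤ ‖z - 1 / 2‖ → φ t z = z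

/-- the flow in the coordinate `1 / z - 2` -/
noncomputable def th (φ : ℝ → ℂ → ℂ) (s : ℝ) (w : ℂ) : ℂ := Tf φ s (w + 2) - 2

theorem th_zero {φ : ℝ → ℂ → ℂ} (hφ : NFlow φ) (w : ℂ) : th φ 0 w = w := by
  unfold th; rw [Tf_zero hφ, add_sub_cancel_right]

theorem th_add {φ : ℝ → ℂ → ℂ} (hφ : NFlow φ) (s t : ℝ) (w : ℂ) :
    th φ (s + t) w = th φ s (th φ t w) := by
  unfold th; rw [Tf_add hφ, sub_add_cancel]

/-- the flow in the coordinate `1 / z - 2`, as a permutation -/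
noncomputable def thP {φ : ℝ → ℂ → ℂ} (hφ : NFlow φ) (s : ℝ) : Equiv.Perm ℂ where
  toFun := th φ s
  invFun := th φ (-s)
  left_inv w := by rw [← th_add hφ, neg_add_cancel, th_zero hφ]
  right_inv w := by rw [← th_add hφ, add_neg_cancel, th_zero hφ]

theorem thP_apply {φ : ℝ → ℂ → ℂ} (hφ : NFlow φ) (s : ℝ) (w : ℂ) : thP hφ s w = th φ s w := rfl

theorem thP_zero {φ : ℝ → ℂ → ℂ} (hφ : NFlow φ) : thP hφ 0 = 1 := by
  ext w; exact th_zero hφ w

theorem thP_add {φ : ℝ → ℂ → ℂ} (hφ : NFlow φ) (s t : ℝ) :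
    thP hφ (s + t) = thP hφ s * thP hφ t := by
  ext w; exact th_add hφ s t w

theorem thP_neg {φ : ℝ → ℂ → ℂ} (hφ : NFlow φ) (s : ℝ) : thP hφ (-s) = (thP hφ s)⁻¹ := by
  rw [eq_inv_iff_mul_eq_one, ← thP_add, neg_add_cancel, thP_zero]

/-- conjugation by the translation by `P` -/
def tr (P : ℂ) : Equiv.Perm ℂ →* Equiv.Perm ℂ := (MulAut.conj (Equiv.addLeft P)).toMonoidHom

theorem tr_apply (P : ℂ) (b : Equiv.Perm ℂ) (w : ℂ) : tr P b w = P + b (w - P) := by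
  change P + b (-P + w) = P + b (w - P)
  rw [neg_add_eq_sub]

/-- the sequence of translated copies of the flow, with labels `a` -/
noncomputable def cpy {φ : ℝ → ℂ → ℂ} (hφ : NFlow φ) (P : ℂ) (a : Dec) (k : ℕ) :
    Equiv.Perm ℂ := tr P (thP hφ (a.1 k))

/-- an open set of local coordinates such that its translates by `4 k` are disjoint -/
structure Reg (Ω : Set ℂ) : Prop where
  bdd : ∃ R : ℝ, ∀ w ∈ Ω, ‖w‖ < R
  low : ∀ w ∈ Ω, ∀ k : ℕ, 1 ≤ ‖w + 4 * k‖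
  disj : ∀ w : ℂ, ∀ j k : ℕ, w - 4 * j ∈ Ω → w - 4 * k ∈ Ω → j = k

/-- families of permutations which fix all points outside `Ω` -/
def FamG (Ω : Set ℂ) : Subgroup (ℕ → Equiv.Perm ℂ) where
  carrier := {B | ∀ k, ∀ w, w ∉ Ω → B k w = w}
  mul_mem' := by
    intro A B hA hB k w hw
    change A k (B k w) = w
    rw [hB k w hw, hA k w hw]
  one_mem' := fun k w _ => rfl
  inv_mem' := by
    intro A hA k w hw
    change (A k)⁻¹ w = w
    rw [Equiv.Perm.inv_eq_iff_eq, hA k w hw]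

theorem mem_FamG {Ω : Set ℂ} {B : ℕ → Equiv.Perm ℂ} :
    B ∈ FamG Ω ↔ ∀ k, ∀ w, w ∉ Ω → B k w = w := Iff.rfl

/-- the map of the coordinate `w = 1 / z` which is `B k` in the coordinate `w - 4 k` -/
noncomputable def Wb (B : ℕ → Equiv.Perm ℂ) (w : ℂ) : ℂ :=
  w + ∑' k : ℕ, (B k (w - 4 * k) - (w - 4 * k))

/-- the displacements are smooth and decay geometrically with all their derivatives -/
def Dcy (B : ℕ → Equiv.Perm ℂ) : Prop :=
  (∀ k, ContDiff ℝ ∞ (B k)) ∧ ∀ n : ℕ, ∃ C q : ℝ, 0 < q ∧ q < 1 ∧ ∀ k w,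
    ‖iteratedFDeriv ℝ n (fun w => B k w - w) w‖ ≤ C * q ^ k

/-- the corridor from `P` to `P + v` -/
def Cor (P v : ℂ) : Set ℂ :=
  {w | |((w - P) / v).re - 1 / 2| ≤ 6 / 5 ∧ |((w - P) / v).im| ≤ 1 / 5}

end Pool.Agent.H27G
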