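import Pool.Agent.H27G.Defs

/-!
# Smoothness of decaying sums at the accumulation point
-/

set_option autoImplicit false

open scoped ContDiff
open Set Filter Topology
open Pool.Agent.H45F Pool.Agent.H75T Pool.Agent.H27F

namespace Pool.Agent.H27G

/-- a term vanishes near the origin -/
theorem term_small (u : ℂ → ℂ) (k : ℕ) (R : ℝ) (hR0 : 0 ≤ R)
    (hR : ∀ w, R ≤ ‖w‖ → u w = 0) (h1 : ∀ w : ℂ, ‖w + 4 * k‖ < 1 → u w = 0)
    {z : ℂ} (hz : ‖z‖ * (4 * k + R + 1) < 1) : u (z⁻¹ - 4 * k) = 0 := by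
  by_cases h0 : z = 0
  · subst h0
    refine h1 _ ?_
    simp
  · refine hR _ ?_
    have hz0 : 0 < ‖z‖ := norm_pos_iff.mpr h0
    have hk0 : (0 : ℝ) ≤ k := Nat.cast_nonneg k
    have h1 : (4 * k + R + 1 : ℝ) < ‖z⁻¹‖ := by
      rw [norm_inv, inv_eq_one_div, lt_div_iff₀ hz0]
      linarith [mul_comm ‖z‖ (4 * k + R + 1 : ℝ)]
    have h2 : ‖(4 * k : ℂ)‖ = 4 * k := by simp
    have h3 := norm_sub_norm_le z⁻¹ (4 * k : ℂ)
    linarith

theorem term_smooth (u : ℂ → ℂ) (hs : ContDiff ℝ ∞ u) (k : ℕ) (R : ℝ) (hR0 : 0 ≤ R)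
    (hR : ∀ w, R ≤ ‖w‖ → u w = 0) (h1 : ∀ w : ℂ, ‖w + 4 * k‖ < 1 → u w = 0) :
    ContDiff ℝ ∞ (fun z : ℂ => u (z⁻¹ - 4 * k)) := by
  rw [contDiff_iff_contDiffAt]
  intro z
  by_cases h0 : z = 0
  · subst h0
    have : (fun z : ℂ => u (z⁻¹ - 4 * k)) =ᶠ[𝓝 (0 : ℂ)] fun _ => 0 := by
      have hopen : {z : ℂ | ‖z‖ * (4 * k + R + 1) < 1} ∈ 𝓝 (0 : ℂ) := by
        refine IsOpen.mem_nhds ?_ (by simp)
        exact isOpen_lt (continuous_norm.mul continuous_const) continuous_const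
      filter_upwards [hopen] with q hq
      exact term_small u k R hR0 hR h1 hq
    exact contDiffAt_const.congr_of_eventuallyEq this
  · have h2 : ContDiffAt ℝ ∞ (fun z : ℂ => z⁻¹ - 4 * k) z :=
      (contDiffAt_invC h0).sub contDiffAt_const
    exact hs.contDiffAt.comp z h2

theorem term_bound (n : ℕ) : ∃ B : ℝ, 1 ≤ B ∧ ∀ (u : ℂ → ℂ) (_ : ContDiff ℝ ∞ u) (k : ℕ) (R : ℝ)
    (_ : 0 ≤ R) (_ : ∀ w, R ≤ ‖w‖ → u w = 0) (_ : ∀ w : ℂ, ‖w + 4 * k‖ < 1 → u w = 0)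
    (A : ℝ) (_ : 0 ≤ A) (_ : ∀ i ≤ n, ∀ w, ‖iteratedFDeriv ℝ i u w‖ ≤ A) (z : ℂ),
    ‖iteratedFDeriv ℝ n (fun z : ℂ => u (z⁻¹ - 4 * k)) z‖ ≤
      (n.factorial : ℝ) * A * (B * (4 * k + R + 1) ^ 2) ^ n := by
  choose B hB1 hB using exists_inv_bound
  set B' : ℝ := ∑ i ∈ Finset.range (n + 1), B i with hB'
  have hBle : ∀ i ≤ n, B i ≤ B' := fun i hi =>
    Finset.single_le_sum (f := B) (fun j _ => le_trans zero_le_one (hB1 j))
      (Finset.mem_range.mpr (Nat.lt_succ_of_le hi))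
  have hB'1 : 1 ≤ B' := (hB1 0).trans (hBle 0 (Nat.zero_le _))
  refine ⟨B', hB'1, fun u hs k R hR0 hR h1 A hA hb z => ?_⟩
  have hk0 : (0 : ℝ) ≤ k := Nat.cast_nonneg k
  by_cases hz : ‖z‖ * (4 * k + R + 1) < 1
  · have hev : (fun z : ℂ => u (z⁻¹ - 4 * k)) =ᶠ[𝓝 z] fun _ => 0 := by
      have hopen : {z : ℂ | ‖z‖ * (4 * k + R + 1) < 1} ∈ 𝓝 z := by
        refine IsOpen.mem_nhds ?_ hz
        exact isOpen_lt (continuous_norm.mul continuous_const) continuous_const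
      filter_upwards [hopen] with q hq
      exact term_small u k R hR0 hR h1 hq
    have h2 := (hev.iteratedFDeriv (𝕜 := ℝ) n).eq_of_nhds
    rw [h2]
    have h3 := congrFun (iteratedFDeriv_fun_zero (𝕜 := ℝ) (E := ℂ) (F := ℂ) (n := n)) z
    have h4 : iteratedFDeriv ℝ n (fun _ : ℂ => (0 : ℂ)) z = 0 := h3
    rw [h4, norm_zero]
    positivity
  · push Not at hz
    have h0 : z ≠ 0 := by
      rintro rfl
      simp at hz
      linarith
    have hz0 : 0 < ‖z‖ := norm_pos_iff.mpr h0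
    have hinv : ‖z‖⁻¹ ≤ 4 * k + R + 1 := by
      rw [inv_le_iff_one_le_mul₀ hz0]; linarith [mul_comm ‖z‖ (4 * k + R + 1 : ℝ)]
    have hopen : IsOpen ({0}ᶜ : Set ℂ) := isOpen_compl_singleton
    set G : ℂ → ℂ := fun v => u (v - 4 * k) with hG
    have hGs : ContDiff ℝ ∞ G := hs.comp (contDiff_id.sub contDiff_const)
    have hfun : (fun z : ℂ => u (z⁻¹ - 4 * k)) = G ∘ fun y : ℂ => y⁻¹ := rfl
    have hk1 : (1 : ℝ) ≤ 4 * k + R + 1 := by linarith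
    have key := norm_iteratedFDerivWithin_comp_le (𝕜 := ℝ) (g := G) (f := fun y : ℂ => y⁻¹)
      (n := n) (s := ({0}ᶜ : Set ℂ)) (t := univ) (x := z) (N := ∞) hGs.contDiffOn
      (fun y hy => (contDiffAt_invC hy).contDiffWithinAt) (by exact_mod_cast le_top)
      uniqueDiffOn_univ hopen.uniqueDiffOn (mapsTo_univ _ _) h0
      (C := A) (D := B' * (4 * k + R + 1) ^ 2)
      (by
        intro i hi
        rw [iteratedFDerivWithin_univ]
        have e : iteratedFDeriv ℝ i G z⁻¹ = iteratedFDeriv ℝ i u (z⁻¹ - 4 * k) :=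
          iteratedFDeriv_comp_sub i _ _
        rw [e]
        exact hb i hi _)
      (by
        intro i hi1 hi
        rw [iteratedFDerivWithin_of_isOpen i hopen h0]
        refine (hB i z h0).trans ?_
        have h5 : ‖z‖⁻¹ ^ (i + 1) ≤ (4 * k + R + 1 : ℝ) ^ (2 * i) := by
          calc ‖z‖⁻¹ ^ (i + 1) ≤ (4 * k + R + 1 : ℝ) ^ (i + 1) := by gcongr
            _ ≤ (4 * k + R + 1 : ℝ) ^ (2 * i) := pow_le_pow_right₀ hk1 (by omega)
        have h6 : B i ≤ B' ^ i := (hBle i hi).trans (le_self_pow₀ hB'1 (by omega))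
        calc B i * ‖z‖⁻¹ ^ (i + 1) ≤ B' ^ i * (4 * k + R + 1 : ℝ) ^ (2 * i) := by
              gcongr
          _ = (B' * (4 * k + R + 1) ^ 2) ^ i := by rw [mul_pow, ← pow_mul])
    rw [iteratedFDerivWithin_of_isOpen n hopen h0] at key
    rw [hfun]
    exact key

theorem tsum_smooth (u : ℕ → ℂ → ℂ) (hs : ∀ k, ContDiff ℝ ∞ (u k)) (R : ℝ)
    (hR : ∀ k w, R ≤ ‖w‖ → u k w = 0) (h1 : ∀ (k : ℕ) (w : ℂ), ‖w + 4 * k‖ < 1 → u k w = 0)
    (hb : ∀ n : ℕ, ∃ C q : ℝ, 0 < q ∧ q < 1 ∧ ∀ k w, ‖iteratedFDeriv ℝ n (u k) w‖ ≤ C * q ^ k) :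
    ContDiff ℝ ∞ (fun z : ℂ => ∑' k : ℕ, u k (z⁻¹ - 4 * k)) := by
  set R' : ℝ := max R 0 with hR'
  have hR'0 : 0 ≤ R' := le_max_right _ _
  have hR2 : ∀ k w, R' ≤ ‖w‖ → u k w = 0 := fun k w hw => hR k w ((le_max_left _ _).trans hw)
  choose C q hq0 hq1 hC using hb
  choose B hB1 hB using term_bound
  -- the constants up to the order `n`
  set C' : ℕ → ℝ := fun n => ∑ i ∈ Finset.range (n + 1), |C i| with hC'
  set q' : ℕ → ℝ := fun n => (Finset.range (n + 1)).sup' ⟨0, Finset.mem_range.mpr (Nat.succ_pos n)⟩ q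
    with hq'
  have hC'0 : ∀ n, 0 ≤ C' n := fun n => Finset.sum_nonneg fun i _ => abs_nonneg _
  have hq'le : ∀ n, ∀ i ≤ n, q i ≤ q' n := fun n i hi =>
    Finset.le_sup' q (Finset.mem_range.mpr (Nat.lt_succ_of_le hi))
  have hq'0 : ∀ n, 0 < q' n := fun n => (hq0 0).trans_le (hq'le n 0 (Nat.zero_le _))
  have hq'1 : ∀ n, q' n < 1 := fun n => by
    rw [hq']
    exact (Finset.sup'_lt_iff _).mpr fun i _ => hq1 i
  have hbd : ∀ n k, ∀ i ≤ n, ∀ w, ‖iteratedFDeriv ℝ i (u k) w‖ ≤ C' n * q' n ^ k := by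
    intro n k i hi w
    refine (hC i k w).trans ?_
    have e1 : C i * q i ^ k ≤ |C i| * q i ^ k :=
      mul_le_mul_of_nonneg_right (le_abs_self _) (pow_nonneg (hq0 i).le _)
    have e2 : |C i| ≤ C' n :=
      Finset.single_le_sum (f := fun i => |C i|) (fun j _ => abs_nonneg _)
        (Finset.mem_range.mpr (Nat.lt_succ_of_le hi))
    have e3 : q i ^ k ≤ q' n ^ k := pow_le_pow_left₀ (hq0 i).le (hq'le n i hi) k
    exact e1.trans (mul_le_mul e2 e3 (pow_nonneg (hq0 i).le _) (hC'0 n))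
  refine contDiff_tsum (𝕜 := ℝ) (f := fun k z => u k (z⁻¹ - 4 * k))
    (v := fun n k => ((n.factorial : ℝ) * C' n * (B n * (R' + 5) ^ 2) ^ n) *
      (((k : ℝ) + 1) ^ (2 * n) * q' n ^ k)) (N := ⊤)
    (fun k => term_smooth (u k) (hs k) k R' hR'0 (hR2 k) (h1 k))
    (fun n _ => (summable_bound (hq'0 n) (hq'1 n) (2 * n)).mul_left _)
    fun n k z _ => ?_
  refine (hB n (u k) (hs k) k R' hR'0 (hR2 k) (h1 k) (C' n * q' n ^ k)
    (mul_nonneg (hC'0 n) (pow_nonneg (hq'0 n).le _)) (hbd n k) z).trans ?_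
  have hk0 : (0 : ℝ) ≤ k := Nat.cast_nonneg k
  have h4 : (4 * (k : ℝ) + R' + 1) ≤ (R' + 5) * ((k : ℝ) + 1) := by nlinarith
  have hB0 : 0 ≤ B n := zero_le_one.trans (hB1 n)
  have h5 : (B n * (4 * (k : ℝ) + R' + 1) ^ 2) ^ n ≤
      (B n * ((R' + 5) * ((k : ℝ) + 1)) ^ 2) ^ n := by
    gcongr
  have h6 : (B n * ((R' + 5) * ((k : ℝ) + 1)) ^ 2) ^ n =
      (B n * (R' + 5) ^ 2) ^ n * ((k : ℝ) + 1) ^ (2 * n) := by
    rw [mul_pow (R' + 5), ← mul_assoc, mul_pow, ← pow_mul]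
  calc (n.factorial : ℝ) * (C' n * q' n ^ k) * (B n * (4 * (k : ℝ) + R' + 1) ^ 2) ^ n
      ≤ (n.factorial : ℝ) * (C' n * q' n ^ k) *
        ((B n * (R' + 5) ^ 2) ^ n * ((k : ℝ) + 1) ^ (2 * n)) := by
        rw [← h6]
        refine mul_le_mul_of_nonneg_left h5 ?_
        have := hC'0 n
        have := (hq'0 n).le
        positivity
    _ = _ := by ring

end Pool.Agent.H27G
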