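import Pool.Agent.H27G.Glue
import Pool.Agent.H27G.SumS

/-!
# Glued families which are diffeomorphisms
-/

set_option autoImplicit false

open scoped ContDiff
open Set Filter Topology
open Pool.Agent.H45F Pool.Agent.H75T Pool.Agent.H27F

namespace Pool.Agent.H27G

variable {Ω : Set ℂ}

theorem glue_eq_mul (hΩ : Reg Ω) (B : FamG Ω) (h : Dcy B.1) :
    ∃ H : ℂ → ℂ, ContDiff ℝ ∞ H ∧ H 0 = 1 ∧ ∀ z : ℂ, glue hΩ B z = z * H z := by
  obtain ⟨R, hR⟩ := hΩ.bdd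
  set u : ℕ → ℂ → ℂ := fun k w => B.1 k w - w with hu
  have hu0 : ∀ k w, w ∉ Ω → u k w = 0 := by
    intro k w hw
    simp only [hu]
    rw [mem_FamG.1 B.2 k w hw, sub_self]
  have hE : ContDiff ℝ ∞ (fun z : ℂ => ∑' k : ℕ, u k (z⁻¹ - 4 * k)) := by
    refine tsum_smooth u (fun k => (h.1 k).sub contDiff_id) R ?_ ?_ h.2
    · intro k w hw
      exact hu0 k w fun hc => absurd (hR w hc) (not_lt.2 hw)
    · intro k w hw
      exact hu0 k w fun hc => absurd (hΩ.low w hc k) (not_le.2 hw)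
  set E : ℂ → ℂ := fun z : ℂ => ∑' k : ℕ, u k (z⁻¹ - 4 * k) with hEd
  have hWE : ∀ z, Wb B.1 z⁻¹ = z⁻¹ + E z := fun z => rfl
  have hW0 : ∀ z : ℂ, z ≠ 0 → Wb B.1 z⁻¹ ≠ 0 := by
    intro z hz hc
    have h1 : glue hΩ B z = 0 := by rw [glue_apply, hc, inv_zero]
    rw [← glue_zero hΩ B] at h1
    exact hz ((glue hΩ B).injective h1)
  have h0 : ∀ z, 1 + z * E z ≠ 0 := by
    intro z
    rcases eq_or_ne z 0 with rfl | hz
    · rw [zero_mul, add_zero]; exact one_ne_zero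
    · have h1 := hW0 z hz
      rw [hWE] at h1
      have h2 : 1 + z * E z = z * (z⁻¹ + E z) := by
        rw [mul_add, mul_inv_cancel₀ hz]
      rw [h2]
      exact mul_ne_zero hz h1
  refine ⟨fun z => (1 + z * E z)⁻¹, (contDiff_const.add (contDiff_id.mul hE)).inv h0, by simp, ?_⟩
  intro z
  rcases eq_or_ne z 0 with rfl | hz
  · rw [glue_zero, zero_mul]
  · have h2 : 1 + z * E z = z * (z⁻¹ + E z) := by
      rw [mul_add, mul_inv_cancel₀ hz]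
    change glue hΩ B z = z * (1 + z * E z)⁻¹
    rw [glue_apply, hWE, h2, mul_inv, mul_inv_cancel_left₀ hz]

theorem glue_smooth (hΩ : Reg Ω) (B : FamG Ω) (h : Dcy B.1) :
    ContDiff ℝ ∞ (fun z : ℂ => glue hΩ B z) := by
  obtain ⟨H, hH, -, hz⟩ := glue_eq_mul hΩ B h
  rw [show (fun z : ℂ => glue hΩ B z) = fun z => z * H z from funext hz]
  exact contDiff_id.mul hH

theorem glue_mem (hΩ : Reg Ω) (B : FamG Ω) (h : Dcy B.1) (h' : Dcy (B⁻¹).1) :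
    glue hΩ B ∈ DiffC := by
  refine ⟨glue_smooth hΩ B h, ?_, 2, fun z hz => glue_one_le hΩ B (by linarith)⟩
  have h1 := glue_smooth hΩ B⁻¹ h'
  have e : (fun z : ℂ => (glue hΩ B).symm z) = fun z => glue hΩ B⁻¹ z := by
    funext z
    rw [map_inv]
    rfl
  rw [e]
  exact h1

/-- a lower bound for the increments gives an injective derivative -/
theorem inj_of_lower {G : ℂ → ℂ} {z : ℂ} (hG : DifferentiableAt ℝ G z) {c : ℝ} (hc : 0 < c)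
    (h : ∀ᶠ y in 𝓝 z, c * ‖y - z‖ ≤ ‖G y - G z‖) (w : ℂ) (hw : fderiv ℝ G z w = 0) : w = 0 := by
  by_contra hne
  have hw0 : 0 < ‖w‖ := norm_pos_iff.2 hne
  have h1 : HasDerivAt (fun t : ℝ => z + (t : ℂ) * w) w 0 := by
    have h2 : HasDerivAt (fun t : ℝ => (t : ℂ)) 1 0 := Complex.ofRealCLM.hasDerivAt
    have h3 := (h2.mul_const w).const_add z
    simpa using h3
  have h4 : HasDerivAt (fun t : ℝ => G (z + (t : ℂ) * w)) 0 0 := by
    have h5 : HasFDerivAt G (fderiv ℝ G z) (z + ((0 : ℝ) : ℂ) * w) := by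
      simpa using hG.hasFDerivAt
    have h6 := h5.comp_hasDerivAt 0 h1
    rw [hw] at h6
    exact h6
  have h7 : Tendsto (fun t : ℝ => z + (t : ℂ) * w) (𝓝 0) (𝓝 z) := by
    have := h1.continuousAt.tendsto
    simpa using this
  have h8 := h7.eventually h
  have h9 := (hasDerivAt_iff_isLittleO.1 h4).def (show (0 : ℝ) < c * ‖w‖ / 2 by positivity)
  have h10 : ∀ᶠ t : ℝ in 𝓝[≠] (0 : ℝ), False := by
    filter_upwards [nhdsWithin_le_nhds h8, nhdsWithin_le_nhds h9, self_mem_nhdsWithin] with t a b d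
    have ht : 0 < |t| := abs_pos.2 d
    simp only [add_sub_cancel_left, sub_zero, smul_zero, Complex.ofReal_zero, zero_mul,
      add_zero, norm_mul, Complex.norm_real, Real.norm_eq_abs] at a b
    have h11 : 0 < |t| * ‖w‖ * c := by positivity
    nlinarith
  rw [Filter.eventually_false_iff_eq_bot] at h10
  exact NeBot.ne (inferInstance : NeBot (𝓝[≠] (0 : ℝ))) h10

/-- a small displacement gives a bi-Lipschitz map -/
theorem Wb_lower (hΩ : Reg Ω) {B : ℕ → Equiv.Perm ℂ} (hB : B ∈ FamG Ω) (d : ℕ → ℂ → ℂ)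
    (hd : ∀ k w, B k w = w + d k w) (hL : ∀ k a b, ‖d k a - d k b‖ ≤ 1 / 4 * ‖a - b‖) (a b : ℂ) :
    1 / 2 * ‖a - b‖ ≤ ‖Wb B a - Wb B b‖ := by
  have h0 : ∀ k w, w ∉ Ω → d k w = 0 := by
    intro k w hw
    have h1 := mem_FamG.1 hB k w hw
    rw [hd] at h1
    exact add_eq_left.1 h1
  have hL' : ∀ (k : ℕ) (a b : ℂ), ‖d k (a - 4 * k) - d k (b - 4 * k)‖ ≤ 1 / 4 * ‖a - b‖ := by
    intro k a b
    have h1 := hL k (a - 4 * k) (b - 4 * k)
    rwa [sub_sub_sub_cancel_right] at h1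
  have hrep : ∀ w : ℂ, (∃ k : ℕ, w - 4 * k ∈ Ω ∧ Wb B w = w + d k (w - 4 * k)) ∨
      ((∀ k : ℕ, w - 4 * k ∉ Ω) ∧ Wb B w = w) := by
    intro w
    by_cases hk : ∃ k : ℕ, w - 4 * k ∈ Ω
    · obtain ⟨k, hk⟩ := hk
      refine Or.inl ⟨k, hk, ?_⟩
      rw [Wb_in hΩ hB k hk, hd]
      ring
    · push Not at hk
      exact Or.inr ⟨hk, Wb_out hB hk⟩
  obtain ⟨X, Y, hX, hY, hXY⟩ : ∃ X Y : ℂ, ‖X‖ ≤ 1 / 4 * ‖a - b‖ ∧ ‖Y‖ ≤ 1 / 4 * ‖a - b‖ ∧
      Wb B a - Wb B b = (a - b) + X + Y := by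
    have hz : ‖(0 : ℂ)‖ ≤ 1 / 4 * ‖a - b‖ := by rw [norm_zero]; positivity
    rcases hrep a with ⟨j, ha, ea⟩ | ⟨ha, ea⟩ <;> rcases hrep b with ⟨k, hb, eb⟩ | ⟨hb, eb⟩
    · by_cases hjk : j = k
      · subst hjk
        refine ⟨_, 0, hL' j a b, hz, ?_⟩
        rw [ea, eb]; ring
      · have h1 : d j (b - 4 * j) = 0 := h0 _ _ fun hc => hjk (hΩ.disj b j k hc hb)
        have h2 : d k (a - 4 * k) = 0 := h0 _ _ fun hc => hjk (hΩ.disj a j k ha hc)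
        refine ⟨_, _, hL' j a b, hL' k a b, ?_⟩
        rw [ea, eb, h1, h2]; ring
    · have h1 : d j (b - 4 * j) = 0 := h0 _ _ (hb j)
      refine ⟨_, 0, hL' j a b, hz, ?_⟩
      rw [ea, eb, h1]; ring
    · have h1 : d k (a - 4 * k) = 0 := h0 _ _ (ha k)
      refine ⟨_, 0, hL' k a b, hz, ?_⟩
      rw [ea, eb, h1]; ring
    · refine ⟨0, 0, hz, hz, ?_⟩
      rw [ea, eb]; ring
  have h1 : a - b = (Wb B a - Wb B b) - X - Y := by rw [hXY]; ring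
  have h2 : ‖a - b‖ ≤ ‖Wb B a - Wb B b‖ + ‖X‖ + ‖Y‖ := by
    calc ‖a - b‖ = ‖(Wb B a - Wb B b) - X - Y‖ := by rw [← h1]
      _ ≤ ‖(Wb B a - Wb B b) - X‖ + ‖Y‖ := norm_sub_le _ _
      _ ≤ _ := by
        have := norm_sub_le (Wb B a - Wb B b) X
        linarith
  linarith

theorem glue_deriv_inj (hΩ : Reg Ω) (B : FamG Ω) (h : Dcy B.1) (d : ℕ → ℂ → ℂ)
    (hd : ∀ k w, B.1 k w = w + d k w) (hL : ∀ k a b, ‖d k a - d k b‖ ≤ 1 / 4 * ‖a - b‖) (z w : ℂ)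
    (hw : fderiv ℝ (fun z : ℂ => glue hΩ B z) z w = 0) : w = 0 := by
  have hs := glue_smooth hΩ B h
  have hdiff : DifferentiableAt ℝ (fun z : ℂ => glue hΩ B z) z := hs.differentiable (by simp) z
  rcases eq_or_ne z 0 with rfl | hz
  · obtain ⟨H, hH, hH0, hHz⟩ := glue_eq_mul hΩ B h
    refine inj_of_lower hdiff (c := 1 / 2) (by norm_num) ?_ w hw
    have h1 : Tendsto (fun y => ‖H y‖) (𝓝 0) (𝓝 1) := by
      have := (hH.continuous.norm.tendsto (0 : ℂ))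
      rwa [hH0, norm_one] at this
    filter_upwards [h1.eventually (lt_mem_nhds (show (1 / 2 : ℝ) < 1 by norm_num))] with y hy
    rw [glue_zero, sub_zero, sub_zero, hHz, norm_mul]
    nlinarith [norm_nonneg y]
  · set g : ℂ → ℂ := fun z : ℂ => glue hΩ B z with hg
    have hinj : Function.Injective g := (glue hΩ B).injective
    have hg0 : g 0 = 0 := glue_zero hΩ B
    have hgne : ∀ y, y ≠ 0 → g y ≠ 0 := fun y hy hc => hy (hinj (by rw [hc, hg0]))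
    have hgz : 0 < ‖g z‖ := norm_pos_iff.2 (hgne z hz)
    have hzn : 0 < ‖z‖ := norm_pos_iff.2 hz
    refine inj_of_lower hdiff (c := ‖g z‖ ^ 2 / (8 * ‖z‖ ^ 2)) (by positivity) ?_ w hw
    have h1 : ∀ᶠ y in 𝓝 z, ‖g z‖ / 2 < ‖g y‖ :=
      (hs.continuous.norm.tendsto z).eventually (lt_mem_nhds (by change ‖g z‖ / 2 < ‖g z‖; linarith))
    have h2 : ∀ᶠ y in 𝓝 z, ‖y‖ < 2 * ‖z‖ :=
      (continuous_norm.tendsto z).eventually (gt_mem_nhds (by linarith))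
    have h3 : ∀ᶠ y in 𝓝 z, y ≠ 0 := isOpen_ne.mem_nhds hz
    filter_upwards [h1, h2, h3] with y a1 a2 a3
    have hy0 : 0 < ‖y‖ := norm_pos_iff.2 a3
    have hgy : 0 < ‖g y‖ := norm_pos_iff.2 (hgne y a3)
    have ey : (g y)⁻¹ = Wb B.1 y⁻¹ := by
      change ((Wb B.1 y⁻¹)⁻¹)⁻¹ = _
      rw [inv_inv]
    have ez : (g z)⁻¹ = Wb B.1 z⁻¹ := by
      change ((Wb B.1 z⁻¹)⁻¹)⁻¹ = _
      rw [inv_inv]
    have h4 := Wb_lower hΩ B.2 d hd hL y⁻¹ z⁻¹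
    rw [← ey, ← ez] at h4
    have e1 : ‖(g y)⁻¹ - (g z)⁻¹‖ = ‖g y - g z‖ / (‖g y‖ * ‖g z‖) := by
      rw [inv_sub_inv (hgne y a3) (hgne z hz), norm_div, norm_mul, norm_sub_rev]
    have e2 : ‖y⁻¹ - z⁻¹‖ = ‖y - z‖ / (‖y‖ * ‖z‖) := by
      rw [inv_sub_inv a3 hz, norm_div, norm_mul, norm_sub_rev]
    rw [e1, e2, le_div_iff₀ (mul_pos hgy hgz)] at h4
    refine le_trans ?_ h4
    have h5 : 0 ≤ ‖y - z‖ := norm_nonneg _
    rw [div_mul_eq_mul_div, div_le_iff₀ (by positivity)]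
    have e3 : 1 / 2 * (‖y - z‖ / (‖y‖ * ‖z‖)) * (‖g y‖ * ‖g z‖) * (8 * ‖z‖ ^ 2) =
        (‖y - z‖ * ‖g z‖) * (4 * ‖g y‖ * ‖z‖ / ‖y‖) := by
      field_simp
      ring
    rw [e3]
    have h6 : ‖g z‖ ≤ 4 * ‖g y‖ * ‖z‖ / ‖y‖ := by
      rw [le_div_iff₀ hy0]
      nlinarith
    calc ‖g z‖ ^ 2 * ‖y - z‖ = (‖y - z‖ * ‖g z‖) * ‖g z‖ := by ring
      _ ≤ _ := mul_le_mul_of_nonneg_left h6 (by positivity)

theorem exists_T (hΩ : Reg Ω) (ξ : ℂ → ℂ) (hξ : ContDiff ℝ ∞ ξ) (h0 : ∀ w, w ∉ Ω → ξ w = 0) :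
    ∃ M0 : ℕ, 0 < M0 ∧ ∀ τ : ℕ → ℝ, τ ∈ Dec → (∀ k, |τ k| ≤ 1 / M0) →
      ∃ T : FamG Ω, (∀ k w, T.1 k w = w + τ k * ξ w) ∧ glue hΩ T ∈ DiffC := by
  obtain ⟨R, hR⟩ := hΩ.bdd
  have hR0 : ∀ w : ℂ, R ≤ ‖w‖ → ξ w = 0 := fun w hw =>
    h0 w fun hc => absurd (hR w hc) (not_lt.2 hw)
  have hcs : HasCompactSupport ξ := by
    refine HasCompactSupport.intro (isCompact_closedBall (0 : ℂ) R) (fun z hz => hR0 z ?_)
    have : ¬ ‖z‖ ≤ R := by simpa using hz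
    exact le_of_lt (not_le.mp this)
  obtain ⟨C, hC⟩ := ContDiff.lipschitzWith_of_hasCompactSupport hcs hξ (by simp)
  obtain ⟨N, hN⟩ := exists_nat_ge (4 * (C : ℝ))
  refine ⟨N + 1, Nat.succ_pos N, fun τ hτ hτ1 => ?_⟩
  have hdL : ∀ k a b, ‖(τ k : ℂ) * ξ a - (τ k : ℂ) * ξ b‖ ≤ 1 / 4 * ‖a - b‖ := by
    intro k a b
    have h1 := hC.dist_le_mul a b
    rw [dist_eq_norm, dist_eq_norm] at h1
    rw [← mul_sub, norm_mul, Complex.norm_real, Real.norm_eq_abs]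
    have h2 := hτ1 k
    have hN1 : (0 : ℝ) < ((N + 1 : ℕ) : ℝ) := by exact_mod_cast Nat.succ_pos N
    have h3 : |τ k| * C ≤ 1 / 4 := by
      calc |τ k| * C ≤ 1 / ((N + 1 : ℕ) : ℝ) * C := mul_le_mul_of_nonneg_right h2 C.2
        _ ≤ 1 / 4 := by
          rw [div_mul_eq_mul_div, one_mul, div_le_div_iff₀ hN1 (by norm_num)]
          push_cast
          linarith
    calc |τ k| * ‖ξ a - ξ b‖ ≤ |τ k| * (C * ‖a - b‖) :=
          mul_le_mul_of_nonneg_left h1 (abs_nonneg _)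
      _ = (|τ k| * C) * ‖a - b‖ := by ring
      _ ≤ 1 / 4 * ‖a - b‖ := mul_le_mul_of_nonneg_right h3 (norm_nonneg _)
  have hex : ∀ k, ∃ f : Equiv.Perm ℂ, f ∈ DiffC ∧ ∀ z, f z = z + (τ k : ℂ) * ξ z := by
    intro k
    refine exists_diffC_of_lipschitz (fun z => (τ k : ℂ) * ξ z) (contDiff_const.mul hξ) (1 / 4)
      (by rw [← NNReal.coe_lt_coe]; norm_num) ?_ R (fun z hz => by simp [hR0 z hz])
    refine LipschitzWith.of_dist_le_mul fun a b => ?_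
    rw [dist_eq_norm, dist_eq_norm]
    have := hdL k a b
    norm_num at this ⊢
    linarith
  choose f hf hfz using hex
  have hfam : f ∈ FamG Ω := by
    intro k w hw
    rw [hfz, h0 w hw, mul_zero, add_zero]
  set T : FamG Ω := ⟨f, hfam⟩ with hT
  have hDcy : Dcy T.1 := by
    refine ⟨fun k => (hf k).1, fun n => ?_⟩
    obtain ⟨C0, r, hr0, hr1, hCr⟩ := mem_Dec.1 hτ
    have hc1 : Continuous (iteratedFDeriv ℝ n ξ) := hξ.continuous_iteratedFDeriv (m := n) (by exact_mod_cast le_top)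
    obtain ⟨K, hK⟩ := hc1.bounded_above_of_compact_support (hcs.iteratedFDeriv n)
    refine ⟨C0 * K, r, hr0, hr1, fun k w => ?_⟩
    have e : (fun w => T.1 k w - w) = (τ k) • ξ := by
      funext w
      change f k w - w = _
      rw [hfz, add_sub_cancel_left, Pi.smul_apply, Complex.real_smul]
    rw [e, iteratedFDeriv_const_smul_apply (hξ.contDiffAt.of_le (by exact_mod_cast le_top)), norm_smul,
      Real.norm_eq_abs]
    have hK0 : 0 ≤ K := le_trans (norm_nonneg _) (hK w)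
    calc |τ k| * ‖iteratedFDeriv ℝ n ξ w‖ ≤ (C0 * r ^ k) * K :=
          mul_le_mul (hCr k) (hK w) (norm_nonneg _) (le_trans (abs_nonneg _) (hCr k))
      _ = C0 * K * r ^ k := by ring
  refine ⟨T, hfz, ?_⟩
  obtain ⟨F, hF, hFz⟩ := exists_diffC_of_bij (fun z : ℂ => glue hΩ T z) (glue_smooth hΩ T hDcy)
    (glue hΩ T).bijective (fun z w hw => glue_deriv_inj hΩ T hDcy (fun k w => (τ k : ℂ) * ξ w)
      hfz hdL z w hw) 2 (fun z hz => glue_one_le hΩ T (by linarith))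
  have : F = glue hΩ T := Equiv.ext hFz
  rw [← this]
  exact hF

end Pool.Agent.H27G
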