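import Pool.Agent.H27G.Defs

/-!
# Gluing a family of local permutations
-/

set_option autoImplicit false

open scoped ContDiff commutatorElement
open Pool.Agent.H45F Pool.Agent.H75T Pool.Agent.H27F

namespace Pool.Agent.H27G

variable {Ω : Set ℂ}

theorem FamG_fix {B : ℕ → Equiv.Perm ℂ} (hB : B ∈ FamG Ω) (k : ℕ) {w : ℂ} (h : w ∉ Ω) :
    B k w = w := mem_FamG.1 hB k w h

/-- a member of a family preserves `Ω` -/
theorem FamG_in {B : ℕ → Equiv.Perm ℂ} (hB : B ∈ FamG Ω) (k : ℕ) {w : ℂ} (h : w ∈ Ω) :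
    B k w ∈ Ω := by
  by_contra hc
  have h1 := FamG_fix hB k hc
  have h2 := (B k).injective h1
  rw [h2] at hc
  exact hc h

theorem Wb_in (hΩ : Reg Ω) {B : ℕ → Equiv.Perm ℂ} (hB : B ∈ FamG Ω) {w : ℂ} (k : ℕ)
    (h : w - 4 * k ∈ Ω) : Wb B w = 4 * k + B k (w - 4 * k) := by
  unfold Wb
  rw [tsum_eq_single k]
  · ring
  · intro j hj
    rw [FamG_fix hB j fun hc => hj (hΩ.disj w j k hc h), sub_self]

theorem Wb_out {B : ℕ → Equiv.Perm ℂ} (hB : B ∈ FamG Ω) {w : ℂ}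
    (h : ∀ k : ℕ, w - 4 * k ∉ Ω) : Wb B w = w := by
  unfold Wb
  rw [tsum_congr fun k => show B k (w - 4 * k) - (w - 4 * k) = 0 by
    rw [FamG_fix hB k (h k), sub_self], tsum_zero, add_zero]

theorem Wb_one (w : ℂ) : Wb 1 w = w := by
  unfold Wb
  rw [tsum_congr fun k => show (1 : ℕ → Equiv.Perm ℂ) k (w - 4 * k) - (w - 4 * k) = 0 by
    rw [Pi.one_apply, Equiv.Perm.one_apply, sub_self], tsum_zero, add_zero]

theorem Wb_mul (hΩ : Reg Ω) {A B : ℕ → Equiv.Perm ℂ} (hA : A ∈ FamG Ω) (hB : B ∈ FamG Ω)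
    (w : ℂ) : Wb (A * B) w = Wb A (Wb B w) := by
  by_cases hk : ∃ k : ℕ, w - 4 * k ∈ Ω
  · obtain ⟨k, hk⟩ := hk
    have h1 : Wb B w - 4 * k ∈ Ω := by
      rw [Wb_in hΩ hB k hk, add_sub_cancel_left]
      exact FamG_in hB k hk
    rw [Wb_in hΩ hA k h1, Wb_in hΩ ((FamG Ω).mul_mem hA hB) k hk, Wb_in hΩ hB k hk,
      add_sub_cancel_left, Pi.mul_apply, Equiv.Perm.mul_apply]
  · push Not at hk
    rw [Wb_out hB hk, Wb_out hA hk, Wb_out ((FamG Ω).mul_mem hA hB) hk]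

/-- the glued permutation of the plane -/
noncomputable def glue (hΩ : Reg Ω) : FamG Ω →* Equiv.Perm ℂ where
  toFun B :=
    { toFun := fun z => (Wb B.1 z⁻¹)⁻¹
      invFun := fun z => (Wb (B⁻¹).1 z⁻¹)⁻¹
      left_inv := by
        intro z
        change (Wb (B⁻¹).1 ((Wb B.1 z⁻¹)⁻¹)⁻¹)⁻¹ = z
        rw [inv_inv, ← Wb_mul hΩ (B⁻¹).2 B.2]
        have h1 : (B⁻¹).1 * B.1 = 1 := congrArg Subtype.val (inv_mul_cancel B)
        rw [h1, Wb_one, inv_inv]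
      right_inv := by
        intro z
        change (Wb B.1 ((Wb (B⁻¹).1 z⁻¹)⁻¹)⁻¹)⁻¹ = z
        rw [inv_inv, ← Wb_mul hΩ B.2 (B⁻¹).2]
        have h1 : B.1 * (B⁻¹).1 = 1 := congrArg Subtype.val (mul_inv_cancel B)
        rw [h1, Wb_one, inv_inv] }
  map_one' := by
    apply Equiv.ext
    intro z
    change (Wb 1 z⁻¹)⁻¹ = z
    rw [Wb_one, inv_inv]
  map_mul' := by
    intro A B
    apply Equiv.ext
    intro z
    change (Wb (A.1 * B.1) z⁻¹)⁻¹ = (Wb A.1 ((Wb B.1 z⁻¹)⁻¹)⁻¹)⁻¹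
    rw [inv_inv, Wb_mul hΩ A.2 B.2]

theorem glue_apply (hΩ : Reg Ω) (B : FamG Ω) (z : ℂ) : glue hΩ B z = (Wb B.1 z⁻¹)⁻¹ := rfl

theorem glue_fix (hΩ : Reg Ω) (B : FamG Ω) {z : ℂ} (h : ∀ k : ℕ, z⁻¹ - 4 * k ∈ Ω → B.1 k = 1) :
    glue hΩ B z = z := by
  rw [glue_apply]
  by_cases hk : ∃ k : ℕ, z⁻¹ - 4 * k ∈ Ω
  · obtain ⟨k, hk⟩ := hk
    rw [Wb_in hΩ B.2 k hk, h k hk, Equiv.Perm.one_apply, add_sub_cancel, inv_inv]
  · push Not at hk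
    rw [Wb_out B.2 hk, inv_inv]

theorem glue_zero (hΩ : Reg Ω) (B : FamG Ω) : glue hΩ B 0 = 0 := by
  refine glue_fix hΩ B fun k hk => ?_
  exfalso
  have h1 := hΩ.low _ hk k
  rw [inv_zero, zero_sub, neg_add_cancel, norm_zero] at h1
  linarith

theorem glue_one_le (hΩ : Reg Ω) (B : FamG Ω) {z : ℂ} (hz : 1 < ‖z‖) : glue hΩ B z = z := by
  refine glue_fix hΩ B fun k hk => ?_
  exfalso
  have h1 := hΩ.low _ hk k
  rw [sub_add_cancel, norm_inv] at h1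
  have h2 : ‖z‖⁻¹ < 1 := inv_lt_one_of_one_lt₀ hz
  linarith

end Pool.Agent.H27G
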