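import Pool.Agent.H27F.Group

/-!
# The group theory of the slow move
-/

set_option autoImplicit false

open scoped commutatorElement
open Pool.Agent.H45F Pool.Agent.H75T Pool.Agent.H27F

namespace Pool.Agent.H27G

/-- the commutator with a fixed element, on the centralizer of its image -/
noncomputable def zeta {E : Type*} [Group E] (p : E →* DiffC) (hp : Function.Surjective p)
    (hc : p.ker ≤ Subgroup.center E) (y : E) :
    Subgroup.centralizer {p y} →* Subgroup.center E where
  toFun g := ⟨⁅lft p hp g, y⁆, hc (comm_mem p hc (by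
    rw [p_lft]
    exact Subgroup.mem_centralizer_singleton_iff.mp g.2))⟩
  map_one' := by
    apply Subtype.ext
    change ⁅lft p hp _, y⁆ = 1
    rw [commutator_eq_of p hc (x' := 1) (y' := y) (by rw [p_lft, map_one]; rfl) rfl,
      commutatorElement_one_left]
  map_mul' := by
    intro g h
    apply Subtype.ext
    change ⁅lft p hp _, y⁆ = ⁅lft p hp g, y⁆ * ⁅lft p hp h, y⁆
    rw [← comm_mul_left (hc (comm_mem p hc (by
      rw [p_lft]
      exact Subgroup.mem_centralizer_singleton_iff.mp h.2)))]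
    exact commutator_eq_of p hc (by rw [p_lft, map_mul, p_lft, p_lft]; rfl) rfl

theorem zeta_val {E : Type*} [Group E] (p : E →* DiffC) (hp : Function.Surjective p)
    (hc : p.ker ≤ Subgroup.center E) (x y : E) (h : p x ∈ Subgroup.centralizer {p y}) :
    ((zeta p hp hc y ⟨p x, h⟩ : Subgroup.center E) : E) = ⁅x, y⁆ := by
  change ⁅lft p hp _, y⁆ = ⁅x, y⁆
  exact commutator_eq_of p hc (p_lft p hp _) rfl

/-- if `f X` and `T` have the commutator `f X f''⁻¹ X⁻¹`, and all these elements commute with the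
image of `y`, then the lifts of `f` and `f''` have the same commutator with `y` -/
theorem slow_comm {E : Type*} [Group E] (p : E →* DiffC) (hp : Function.Surjective p)
    (hc : p.ker ≤ Subgroup.center E) (f X f'' T : DiffC) (x x'' y : E)
    (hx : p x = f) (hx'' : p x'' = f'') (hf : f * p y = p y * f) (hX : X * p y = p y * X)
    (hf'' : f'' * p y = p y * f'') (hT : T * p y = p y * T)
    (h : f * X * T * (f * X)⁻¹ * T⁻¹ = f * X * f''⁻¹ * X⁻¹) : ⁅x, y⁆ = ⁅x'', y⁆ := by
  subst hx hx''
  have mem : ∀ g : DiffC, g * p y = p y * g → g ∈ Subgroup.centralizer {p y} := fun g hg =>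
    Subgroup.mem_centralizer_singleton_iff.mpr hg
  set f1 : Subgroup.centralizer {p y} := ⟨_, mem _ hf⟩ with hf1
  set f2 : Subgroup.centralizer {p y} := ⟨_, mem _ hf''⟩ with hf2
  set X1 : Subgroup.centralizer {p y} := ⟨_, mem _ hX⟩ with hX1
  set T1 : Subgroup.centralizer {p y} := ⟨_, mem _ hT⟩ with hT1
  have h1 : f1 * X1 * T1 * (f1 * X1)⁻¹ * T1⁻¹ = f1 * X1 * f2⁻¹ * X1⁻¹ := Subtype.ext h
  have h2 := congrArg (zeta p hp hc y) h1
  simp only [map_mul, map_inv] at h2
  have h3 : zeta p hp hc y f1 = zeta p hp hc y f2 := by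
    have e1 : zeta p hp hc y f1 * zeta p hp hc y X1 * zeta p hp hc y T1 *
        (zeta p hp hc y f1 * zeta p hp hc y X1)⁻¹ * (zeta p hp hc y T1)⁻¹ = 1 := by
      rw [mul_right_comm _ (zeta p hp hc y T1), mul_inv_cancel, one_mul, mul_inv_cancel]
    rw [e1] at h2
    have e2 : zeta p hp hc y f1 * zeta p hp hc y X1 * (zeta p hp hc y f2)⁻¹ *
        (zeta p hp hc y X1)⁻¹ = zeta p hp hc y f1 * (zeta p hp hc y f2)⁻¹ := by
      rw [mul_right_comm (zeta p hp hc y f1), mul_inv_cancel_right]
    rw [e2] at h2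
    exact mul_inv_eq_one.mp h2.symm
  have h4 := congrArg Subtype.val h3
  rwa [hf1, hf2, zeta_val, zeta_val] at h4

end Pool.Agent.H27G
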