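import Pool.Agent.H27G.Cross
import Pool.Agent.H27F.Main

/-!
# The form of two commuting flows is bilinear over the reals
-/

set_option autoImplicit false

open scoped ContDiff commutatorElement
open Pool.Agent.H45F Pool.Agent.H75T Pool.Agent.H27F

namespace Pool.Agent.H27G

theorem nf_tight {φ : ℝ → ℂ → ℂ} {R : ℝ} {r : ℝ} (hr : 0 < r) (hR : 16 * R * r ≤ 1)
    (hR0 : 0 ≤ R)
    (hφ : ContDiff ℝ ∞ (fun q : ℝ × ℂ => φ q.1 q.2)) (hφ0 : ∀ z, φ 0 z = z)
    (hφa : ∀ s t z, φ (s + t) z = φ s (φ t z)) (hφR : ∀ t z, R ≤ ‖z‖ → φ t z = z) :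
    TFlow (nf r φ) := by
  have hrc : (r : ℂ) ≠ 0 := by exact_mod_cast hr.ne'
  have hRr : 0 ≤ R * r := mul_nonneg hR0 hr.le
  refine ⟨nf_flow (R := R) hr (by nlinarith) hφ hφ0 hφa hφR, ?_⟩
  intro t z hz
  have h1 : R ≤ ‖(z - 1 / 2) / (r : ℂ)‖ := by
    rw [norm_div, Complex.norm_real, Real.norm_eq_abs, abs_of_pos hr, le_div_iff₀ hr]
    nlinarith
  simp only [nf, hφR t _ h1]
  field_simp
  ring

/-- the form and its extension to sequences, with vanishing for disjoint supports -/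
theorem core2 {E : Type*} [Group E] (p : E →* DiffC) (hp : Function.Surjective p)
    (hc : p.ker ≤ Subgroup.center E) (hE : commutator E = ⊤) {φ ψ : ℝ → ℂ → ℂ}
    (hφ' : TFlow φ) (hψ' : TFlow ψ) (hcomm : ∀ s t z, φ s (ψ t z) = ψ t (φ s z)) :
    ∃ c : ℝ →+ ℝ →+ Additive (Subgroup.center E),
      (∀ α s t : ℝ, c (α * s) t = c s (α * t)) ∧
      ∀ (s t : ℝ) (x y : E), (∀ z, (p x : Equiv.Perm ℂ) z = φ s z) →
        (∀ z, (p y : Equiv.Perm ℂ) z = ψ t z) → (((c s t).toMul : Subgroup.center E) : E) = ⁅x, y⁆ := by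
  have hφ : NFlow φ := hφ'.toNFlow
  have hψ : NFlow ψ := hψ'.toNFlow
  set F := pairF p hp hc hφ hψ hcomm with hF
  have hchart : IsChart (Metric.ball (1 / 2 : ℂ) (3 / 10)) := isChart_ball _ (by norm_num)
  set c : ℝ →+ ℝ →+ Additive (Subgroup.center E) :=
    AddMonoidHom.mk' (fun x => (F (one0 x)).comp one0) (by
    intro x x'
    ext y
    simp only [map_add, AddMonoidHom.comp_apply, AddMonoidHom.add_apply]) with hcdef
  have hrec : ∀ s t : Dec, F s t = c (s.1 0) (t.1 0) + F (shL s) (shL t) := by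
    intro s t
    have h1 : ∀ x : ℝ, ∀ u : Dec, F (one0 x) (shR u) = 0 := by
      intro x u
      refine pairF_zero p hp hc hφ hψ hcomm ?_
      rw [commutatorElement_eq_one_iff_mul_comm]
      exact commute_of_chart p hp hc hE hchart _ _ (suppIn_one0 p hp hφ x) (fix_shR p hp hψ u)
    have h2 : ∀ x : ℝ, ∀ u : Dec, F (shR u) (one0 x) = 0 := by
      intro x u
      refine pairF_zero p hp hc hφ hψ hcomm ?_
      rw [commutatorElement_eq_one_iff_mul_comm]
      exact (commute_of_chart p hp hc hE hchart _ _ (suppIn_one0 p hp hψ x) (fix_shR p hp hφ u)).symm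
    have h3 : ∀ u v : Dec, F (shR u) (shR v) = F u v := by
      intro u v
      obtain ⟨h, hh⟩ := exists_shift4
      obtain ⟨k, hk⟩ := hp h
      apply Additive.toMul.injective
      apply Subtype.ext
      rw [hF, pairF_val, pairF_val]
      refine commutator_conj p hc (k := k) ?_ ?_ ?_
      · rw [p_lf, p_lf]; exact sumFlow_comm hφ hψ hcomm u v
      · rw [p_lf, p_lf, hk, sumFlow_shift hφ h hh u]; group
      · rw [p_lf, p_lf, hk, sumFlow_shift hψ h hh v]; group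
    conv_lhs => rw [decomp s, decomp t]
    rw [map_add, map_add, AddMonoidHom.add_apply, AddMonoidHom.add_apply, h1, h2, h3, add_zero,
      zero_add]
    rfl
  refine ⟨c, alg_real c F hrec ?_, ?_⟩
  · intro s t hst
    refine pairF_zero p hp hc hφ hψ hcomm ?_
    exact cross p hp hc hE hφ' hψ' s t hst _ _ (p_lf p hp hφ s) (p_lf p hp hψ t)
  · intro s t x y hx hy
    change (((pairF p hp hc hφ hψ hcomm (one0 s) (one0 t)).toMul : Subgroup.center E) : E) = _
    rw [pairF_val]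
    refine commutator_eq_of p hc ?_ ?_
    · rw [p_lf]
      exact diffC_ext fun z => by rw [sumFlow_one0, hx]
    · rw [p_lf]
      exact diffC_ext fun z => by rw [sumFlow_one0, hy]

theorem bilinear {E : Type*} [Group E] (p : E →* DiffC) (hp : Function.Surjective p)
    (hc : p.ker ≤ Subgroup.center E) (hE : commutator E = ⊤) {φ ψ : ℝ → ℂ → ℂ} {R : ℝ}
    (hφ : ContDiff ℝ ∞ (fun q : ℝ × ℂ => φ q.1 q.2)) (hφ0 : ∀ z, φ 0 z = z)
    (hφa : ∀ s t z, φ (s + t) z = φ s (φ t z)) (hφR : ∀ t z, R ≤ ‖z‖ → φ t z = z)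
    (hψ : ContDiff ℝ ∞ (fun q : ℝ × ℂ => ψ q.1 q.2)) (hψ0 : ∀ z, ψ 0 z = z)
    (hψa : ∀ s t z, ψ (s + t) z = ψ s (ψ t z)) (hψR : ∀ t z, R ≤ ‖z‖ → ψ t z = z)
    (hcomm : ∀ s t z, φ s (ψ t z) = ψ t (φ s z)) :
    ∃ c : ℝ →+ ℝ →+ Additive (Subgroup.center E),
      (∀ α s t : ℝ, c (α * s) t = c s (α * t)) ∧
      ∀ (s t : ℝ) (x y : E), (∀ z, (p x : Equiv.Perm ℂ) z = φ s z) →
        (∀ z, (p y : Equiv.Perm ℂ) z = ψ t z) →
          (((c s t).toMul : Subgroup.center E) : E) = ⁅x, y⁆ := by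
  set R' : ℝ := max R 1 with hR'
  have hm : 0 < R' := lt_max_of_lt_right one_pos
  set r : ℝ := 1 / (16 * R') with hrdef
  have hr : 0 < r := by positivity
  have hR : 16 * R' * r ≤ 1 := by
    rw [hrdef]; field_simp; rfl
  have hrc : (r : ℂ) ≠ 0 := by exact_mod_cast hr.ne'
  obtain ⟨θ, hθ, hθa⟩ := exists_conj_similarity r hr (1 / 2)
  have hlift : ∀ (χ : ℝ → ℂ → ℂ) (s : ℝ) (x : E), (∀ z, (p x : Equiv.Perm ℂ) z = χ s z) →
      ∀ z, ((θ.comp p) x : Equiv.Perm ℂ) z = nf r χ s z := by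
    intro χ s x hx z
    have e : z = 1 / 2 + (r : ℂ) * ((z - 1 / 2) / r) := by
      field_simp; ring
    rw [MonoidHom.comp_apply]
    conv_lhs => rw [e]
    rw [hθa, hx]
    rfl
  have hker : (θ.comp p).ker ≤ Subgroup.center E := by
    intro x hx
    apply hc
    rw [MonoidHom.mem_ker, MonoidHom.comp_apply] at hx
    rw [MonoidHom.mem_ker]
    exact hθ.1 (by rw [hx, map_one])
  obtain ⟨c, hF, hcx⟩ := core2 (θ.comp p) (hθ.2.comp hp) hker hE
    (nf_tight hr hR hm.le hφ hφ0 hφa fun t z hz => hφR t z (le_trans (le_max_left _ _) hz))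
    (nf_tight hr hR hm.le hψ hψ0 hψa fun t z hz => hψR t z (le_trans (le_max_left _ _) hz)) (by
      intro s t z
      simp only [nf]
      congr 2
      rw [add_sub_cancel_left, add_sub_cancel_left, mul_div_cancel_left₀ _ hrc,
        mul_div_cancel_left₀ _ hrc, hcomm])
  exact ⟨c, hF, fun s t x y hx hy => hcx s t x y (hlift φ s x hx) (hlift ψ t y hy)⟩

end Pool.Agent.H27G
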