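import Pool.Agent.H27G.Geo
import Pool.Agent.H27G.Comp
import Pool.Agent.H27G.Copy
import Pool.Agent.H27G.GroupS

/-!
# The slow move
-/

set_option autoImplicit false

open scoped ContDiff commutatorElement
open Pool.Agent.H45F Pool.Agent.H75T Pool.Agent.H27F

namespace Pool.Agent.H27G

/-- the copy of the flow with labels `a` and base point `P`, as a diffeomorphism -/
theorem exists_copy {φ : ℝ → ℂ → ℂ} (hφ : TFlow φ) {P : ℂ} {Ω : Set ℂ} (hΩ : Reg Ω)
    (hP : ∀ w, ‖w - P‖ < 3 / 10 → w ∈ Ω) (a : Dec) :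
    ∃ f : DiffC, ∀ z, (f : Equiv.Perm ℂ) z = (Wb (cpy hφ.toNFlow P a) z⁻¹)⁻¹ :=
  ⟨⟨glue hΩ ⟨_, cpy_mem hφ hP a⟩, glue_mem hΩ _ (cpy_Dcy hφ.toNFlow P a) (by
    change Dcy (cpy hφ.toNFlow P a)⁻¹
    rw [← cpy_neg]; exact cpy_Dcy hφ.toNFlow P _)⟩, fun z => rfl⟩

/-! ## The vector field -/

/-- the cut-off function of the corridor -/
noncomputable def chi (u : ℂ) : ℝ := B ((u.re - 1 / 2) / (3 / 5)) * B (u.im / (1 / 10))

theorem chi_smooth : ContDiff ℝ ∞ chi :=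
  ((B_scale (S := 3 / 5) (by norm_num)).smooth.comp (contDiff_re.sub contDiff_const)).mul
    ((B_scale (S := 1 / 10) (by norm_num)).smooth.comp contDiff_im)

theorem chi_one {u : ℂ} (h1 : |u.re - 1 / 2| ≤ 3 / 5) (h2 : |u.im| ≤ 1 / 10) : chi u = 1 := by
  unfold chi
  rw [B_scale_one (by norm_num) h1, B_scale_one (by norm_num) h2, one_mul]

theorem chi_zero {u : ℂ} (h : ¬ (|u.re - 1 / 2| ≤ 6 / 5 ∧ |u.im| ≤ 1 / 5)) : chi u = 0 := by
  unfold chi
  by_cases h1 : |u.re - 1 / 2| ≤ 6 / 5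
  · have h2 : 1 / 5 < |u.im| := not_le.mp fun h2 => h ⟨h1, h2⟩
    rw [B_zero (x := u.im / (1 / 10)), mul_zero]
    rw [abs_div, abs_of_pos (by norm_num : (0 : ℝ) < 1 / 10), le_div_iff₀ (by norm_num)]
    linarith
  · push Not at h1
    rw [B_zero (x := (u.re - 1 / 2) / (3 / 5)), zero_mul]
    rw [abs_div, abs_of_pos (by norm_num : (0 : ℝ) < 3 / 5), le_div_iff₀ (by norm_num)]
    linarith

/-- the vector field of the corridor -/
noncomputable def xi (P v : ℂ) (w : ℂ) : ℂ := (chi ((w - P) / v) : ℂ) * v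

theorem xi_smooth (P v : ℂ) : ContDiff ℝ ∞ (xi P v) := by
  have h1 : ContDiff ℝ ∞ (fun w : ℂ => (w - P) / v) := (contDiff_id.sub contDiff_const).div_const _
  exact (Complex.ofRealCLM.contDiff.comp (chi_smooth.comp h1)).mul contDiff_const

theorem xi_zero {P v w : ℂ} (h : w ∉ Cor P v) : xi P v w = 0 := by
  unfold xi
  rw [chi_zero (u := (w - P) / v) h, Complex.ofReal_zero, zero_mul]

/-- coordinates of points near the segment -/
theorem near_seg {P v w : ℂ} (hv : 4 ≤ ‖v‖) {l M : ℕ} (hM : 0 < M) (hl : l ≤ M)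
    (h : ‖w - (P + (l / M : ℝ) * v)‖ < 3 / 10) :
    |((w - P) / v).re - 1 / 2| ≤ 3 / 5 ∧ |((w - P) / v).im| ≤ 1 / 10 := by
  have hv0 : v ≠ 0 := by
    rintro rfl
    rw [norm_zero] at hv
    linarith
  have hMr : (0 : ℝ) < M := by exact_mod_cast hM
  have hlr : (l : ℝ) ≤ M := by exact_mod_cast hl
  have e : (w - P) / v = (w - (P + (l / M : ℝ) * v)) / v + ((l / M : ℝ) : ℂ) := by
    field_simp
    ring
  have h1 : ‖(w - (P + (l / M : ℝ) * v)) / v‖ ≤ 3 / 40 := by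
    rw [norm_div, div_le_iff₀ (by linarith)]
    nlinarith
  have h2 := (Complex.abs_re_le_norm _).trans h1
  have h3 := (Complex.abs_im_le_norm _).trans h1
  have h4 : (0 : ℝ) ≤ l / M := by positivity
  have h5 : (l / M : ℝ) ≤ 1 := (div_le_one hMr).mpr hlr
  rw [e, Complex.add_re, Complex.add_im, Complex.ofReal_re, Complex.ofReal_im, add_zero]
  rw [abs_le] at h2 ⊢
  constructor
  · constructor <;> linarith
  · linarith

theorem near_mem {P v w : ℂ} (hv : 4 ≤ ‖v‖) {l M : ℕ} (hM : 0 < M) (hl : l ≤ M)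
    (h : ‖w - (P + (l / M : ℝ) * v)‖ < 3 / 10) : w ∈ Cor P v := by
  have h1 := near_seg hv hM hl h
  exact ⟨h1.1.trans (by norm_num), h1.2.trans (by norm_num)⟩

theorem near_xi {P v w : ℂ} (hv : 4 ≤ ‖v‖) {l M : ℕ} (hM : 0 < M) (hl : l ≤ M)
    (h : ‖w - (P + (l / M : ℝ) * v)‖ < 3 / 10) : xi P v w = v := by
  have h1 := near_seg hv hM hl h
  unfold xi
  rw [chi_one h1.1 h1.2, Complex.ofReal_one, one_mul]

/-! ## The number of steps -/

theorem exists_steps (a : Dec) (M0 : ℕ) (hM0 : 0 < M0) : ∃ (M : ℕ → ℕ) (D q : ℝ),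
    0 < q ∧ q < 1 ∧ 0 ≤ D ∧ (∀ k, M0 ≤ M k) ∧ (∀ k, (1 : ℝ) / M k ≤ q ^ k) ∧
    ∀ k, (M k : ℝ) * |a.1 k| ≤ D * q ^ k := by
  obtain ⟨C, r, hr, hr1, h⟩ := a.2
  have hC : 0 ≤ C := by
    have := h 0; simp only [pow_zero, mul_one] at this; exact le_trans (abs_nonneg _) this
  set q : ℝ := Real.sqrt r with hq
  have hq0 : 0 < q := Real.sqrt_pos.mpr hr
  have hqq : q * q = r := Real.mul_self_sqrt hr.le
  have hq1 : q < 1 := by nlinarith
  have hM0r : (1 : ℝ) ≤ M0 := by exact_mod_cast hM0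
  refine ⟨fun k => M0 * ⌈q⁻¹ ^ k⌉₊, M0 * 2 * C, q, hq0, hq1, by positivity, ?_, ?_, ?_⟩
  · intro k
    have h1 : 0 < ⌈q⁻¹ ^ k⌉₊ := Nat.ceil_pos.mpr (by positivity)
    exact Nat.le_mul_of_pos_right _ h1
  · intro k
    have h1 : q⁻¹ ^ k ≤ (⌈q⁻¹ ^ k⌉₊ : ℝ) := Nat.le_ceil _
    have h2 : q⁻¹ ^ k ≤ (M0 : ℝ) * (⌈q⁻¹ ^ k⌉₊ : ℝ) := by
      have h3 : (0 : ℝ) ≤ (⌈q⁻¹ ^ k⌉₊ : ℝ) := Nat.cast_nonneg _
      nlinarith
    push_cast
    rw [one_div, inv_le_comm₀ (lt_of_lt_of_le (by positivity) h2) (by positivity), ← inv_pow]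
    exact h2
  · intro k
    have h1 : (⌈q⁻¹ ^ k⌉₊ : ℝ) ≤ q⁻¹ ^ k + 1 := (Nat.ceil_lt_add_one (by positivity)).le
    have h2 : 1 ≤ q⁻¹ ^ k := one_le_pow₀ ((one_le_inv₀ hq0).mpr hq1.le)
    have h3 : (⌈q⁻¹ ^ k⌉₊ : ℝ) ≤ 2 * q⁻¹ ^ k := by linarith
    have h4 : q⁻¹ ^ k * r ^ k = q ^ k := by
      rw [← mul_pow, ← hqq, inv_mul_cancel_left₀ hq0.ne']
    push_cast
    calc (M0 : ℝ) * (⌈q⁻¹ ^ k⌉₊ : ℝ) * |a.1 k| ≤ (M0 : ℝ) * (2 * q⁻¹ ^ k) * (C * r ^ k) := by
          gcongr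
          exact h k
      _ = M0 * 2 * C * (q⁻¹ ^ k * r ^ k) := by ring
      _ = M0 * 2 * C * q ^ k := by rw [h4]

/-! ## Products of lists -/

section lists

variable {G : Type*} [Group G] (A : ℕ → G)

theorem prod_range_succ_left (m : ℕ) : ((List.range (m + 1)).map A).prod =
    A 0 * ((List.range m).map fun l => A (l + 1)).prod := by
  rw [List.range_succ_eq_map, List.map_cons, List.prod_cons, List.map_map]
  rfl

theorem conj_prod (T : G) (m : ℕ) (h : ∀ l < m, T * A l * T⁻¹ = A (l + 1)) :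
    T * ((List.range m).map A).prod * T⁻¹ = ((List.range m).map fun l => A (l + 1)).prod := by
  induction m with
  | zero => simp
  | succ m ih =>
    rw [List.range_succ, List.map_append, List.prod_append, List.map_append, List.prod_append,
      ← ih fun l hl => h l (Nat.lt_succ_of_lt hl)]
    simp only [List.map_cons, List.map_nil, List.prod_cons, List.prod_nil, mul_one]
    rw [← h m (Nat.lt_succ_self m)]
    group

theorem slow_identity (T : G) (m : ℕ) (h : ∀ l < m + 1, T * A l * T⁻¹ = A (l + 1)) :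
    A 0 * ((List.range m).map fun l => A (l + 1)).prod * T *
      (A 0 * ((List.range m).map fun l => A (l + 1)).prod)⁻¹ * T⁻¹ =
    A 0 * ((List.range m).map fun l => A (l + 1)).prod * (A (m + 1))⁻¹ *
      (((List.range m).map fun l => A (l + 1)).prod)⁻¹ := by
  have h1 := conj_prod A T (m + 1) h
  rw [prod_range_succ_left] at h1
  have h2 : ((List.range (m + 1)).map fun l => A (l + 1)).prod =
      ((List.range m).map fun l => A (l + 1)).prod * A (m + 1) := by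
    rw [List.range_succ, List.map_append, List.prod_append]
    simp
  rw [h2] at h1
  set Y := ((List.range m).map fun l => A (l + 1)).prod
  have h3 : T * (A 0 * Y)⁻¹ * T⁻¹ = (Y * A (m + 1))⁻¹ := by
    rw [← h1]; group
  calc A 0 * Y * T * (A 0 * Y)⁻¹ * T⁻¹ = A 0 * Y * (T * (A 0 * Y)⁻¹ * T⁻¹) := by group
    _ = A 0 * Y * (A (m + 1))⁻¹ * Y⁻¹ := by rw [h3]; group

end lists

/-! ## Decay of long products -/

theorem list_Dcy {φ : ℝ → ℂ → ℂ} (hφ : NFlow φ) (a : Dec) (M : ℕ → ℕ) (D q : ℝ) (hq : 0 < q)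
    (hq1 : q < 1) (hD : 0 ≤ D) (hM : ∀ k, (M k : ℝ) * |a.1 k| ≤ D * q ^ k)
    (L : ℕ → List (Equiv.Perm ℂ)) (hL : ∀ k, (L k).length ≤ M k)
    (hLm : ∀ k, ∀ A ∈ L k, ∃ (Q : ℂ) (s : ℝ), |s| = |a.1 k| ∧ A = tr Q (thP hφ s)) :
    Dcy (fun k => (L k).prod) := by
  obtain ⟨C, r, hr, hr1, h⟩ := a.2
  have hC : 0 ≤ C := by
    have := h 0; simp only [pow_zero, mul_one] at this; exact le_trans (abs_nonneg _) this
  have hM' : ∀ k, |a.1 k| ≤ C := fun k =>
    (h k).trans (mul_le_of_le_one_right hC (pow_le_one₀ hr.le hr1.le))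
  choose E hE0 hE using fun n => exists_tr_bound hφ n C hC
  have key : ∀ n : ℕ, ∃ K : ℝ, ∀ k, ContDiff ℝ ∞ ((L k).prod) ∧ ∀ w,
      ‖iteratedFDeriv ℝ n (fun w => (L k).prod w - w) w‖ ≤ K * q ^ k := by
    intro n
    set E' : ℝ := ∑ i ∈ Finset.range (n + 1), E i with hE'
    have hEle : ∀ i ≤ n, E i ≤ E' := fun i hi =>
      Finset.single_le_sum (f := E) (fun j _ => hE0 j)
        (Finset.mem_range.mpr (Nat.lt_succ_of_le hi))
    have hE'0 : 0 ≤ E' := (hE0 0).trans (hEle 0 (Nat.zero_le _))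
    obtain ⟨K, hK0, hK⟩ := exists_comp_bound n (E' * D)
    refine ⟨K * (E' * D), fun k => ?_⟩
    have hlen : ((L k).length : ℝ) ≤ M k := by exact_mod_cast hL k
    have hb : ((L k).length : ℝ) * (E' * |a.1 k|) ≤ E' * D * q ^ k := by
      calc ((L k).length : ℝ) * (E' * |a.1 k|) ≤ (M k : ℝ) * (E' * |a.1 k|) := by gcongr
        _ = E' * ((M k : ℝ) * |a.1 k|) := by ring
        _ ≤ E' * (D * q ^ k) := mul_le_mul_of_nonneg_left (hM k) hE'0
        _ = E' * D * q ^ k := by ring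
    have hqk : q ^ k ≤ 1 := pow_le_one₀ hq.le hq1.le
    have hb' : ((L k).length : ℝ) * (E' * |a.1 k|) ≤ E' * D :=
      hb.trans (mul_le_of_le_one_right (by positivity) hqk)
    obtain ⟨h1, h2⟩ := hK (L k) (E' * |a.1 k|) (by positivity) (by
      intro A hA
      obtain ⟨Q, s, hs, rfl⟩ := hLm k A hA
      refine ⟨tr_smooth hφ Q s, fun j hj w => ?_⟩
      refine (hE j s (by rw [hs]; exact hM' k) Q w).trans ?_
      rw [hs]
      exact mul_le_mul_of_nonneg_right (hEle j hj) (abs_nonneg _)) hb'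
    refine ⟨h1, fun w => (h2 n le_rfl w).trans ?_⟩
    calc K * (((L k).length : ℝ) * (E' * |a.1 k|)) ≤ K * (E' * D * q ^ k) := by gcongr
      _ = K * (E' * D) * q ^ k := by ring
  refine ⟨fun k => ?_, fun n => ?_⟩
  · obtain ⟨K, hK⟩ := key 0
    exact (hK k).1
  · obtain ⟨K, hK⟩ := key n
    exact ⟨K, q, hq, hq1, fun k w => (hK k).2 w⟩

/-- elements of a glued family which are trivial where `a` vanishes commute with `g` -/
theorem glue_comm {P v : ℂ} (hΩ : Reg (Cor P v)) (a : ℕ → ℝ) (g : DiffC)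
    (hg : ∀ (z : ℂ) (k : ℕ), z⁻¹ - 4 * k ∈ Cor P v → a k ≠ 0 → (g : Equiv.Perm ℂ) z = z)
    (Bf : FamG (Cor P v)) (hB : ∀ k, a k = 0 → Bf.1 k = 1) (f : DiffC)
    (hf : (f : Equiv.Perm ℂ) = glue hΩ Bf) : f * g = g * f := by
  apply Subtype.ext
  change (f : Equiv.Perm ℂ) * (g : Equiv.Perm ℂ) = (g : Equiv.Perm ℂ) * (f : Equiv.Perm ℂ)
  rw [hf]
  refine perm_comm_of_fix {z : ℂ | ∃ k : ℕ, z⁻¹ - 4 * k ∈ Cor P v ∧ a k ≠ 0} _ _ ?_ ?_
  · intro z hz
    refine glue_fix hΩ Bf fun k hk => ?_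
    by_contra h
    exact hz ⟨k, hk, fun h0 => h (hB k h0)⟩
  · rintro z ⟨k, hk, hak⟩
    exact hg z k hk hak

theorem slow_move {E : Type*} [Group E] (p : E →* DiffC) (hp : Function.Surjective p)
    (hc : p.ker ≤ Subgroup.center E) {φ : ℝ → ℂ → ℂ} (hφ : TFlow φ) {P v : ℂ} (hv : 4 ≤ ‖v‖)
    (hΩ : Reg (Cor P v)) (a : Dec) (y : E)
    (hy : ∀ (z : ℂ) (k : ℕ), z⁻¹ - 4 * k ∈ Cor P v → a.1 k ≠ 0 → (p y : Equiv.Perm ℂ) z = z)
    (x x'' : E) (hx : ∀ z, (p x : Equiv.Perm ℂ) z = (Wb (cpy hφ.toNFlow P a) z⁻¹)⁻¹)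
    (hx'' : ∀ z, (p x'' : Equiv.Perm ℂ) z = (Wb (cpy hφ.toNFlow (P + v) a) z⁻¹)⁻¹) :
    ⁅x, y⁆ = ⁅x'', y⁆ := by
  obtain ⟨M0, hM0, hT⟩ := exists_T hΩ (xi P v) (xi_smooth P v) (fun w hw => xi_zero hw)
  obtain ⟨M, D, q, hq, hq1, hD, hM0le, hMq, hMa⟩ := exists_steps a M0 hM0
  have hMpos : ∀ k, 0 < M k := fun k => lt_of_lt_of_le hM0 (hM0le k)
  have hMr : ∀ k, (0 : ℝ) < M k := fun k => by exact_mod_cast hMpos k
  set τ : ℕ → ℝ := fun k => if a.1 k = 0 then 0 else 1 / M k with hτ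
  have hτ1 : ∀ k, |τ k| ≤ 1 / M k := by
    intro k
    simp only [hτ]
    split_ifs with h
    · rw [abs_zero]; positivity
    · rw [abs_of_nonneg (by positivity)]
  obtain ⟨T, hTw, hTg⟩ := hT τ ⟨1, q, hq, hq1, fun k => by
      rw [one_mul]; exact (hτ1 k).trans (hMq k)⟩ (fun k => by
      refine (hτ1 k).trans ?_
      have h1 : (M0 : ℝ) ≤ M k := by exact_mod_cast hM0le k
      have h2 : (0 : ℝ) < M0 := by exact_mod_cast hM0
      exact one_div_le_one_div_of_le h2 h1)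
  -- the copies along the way
  set A : ℕ → ℕ → Equiv.Perm ℂ := fun k l =>
    tr (P + (l / M k : ℝ) * v) (thP hφ.toNFlow (a.1 k)) with hA
  have hA0 : ∀ k, A k 0 = cpy hφ.toNFlow P a k := by
    intro k
    simp only [hA, cpy]
    congr 2
    simp
  have hAM : ∀ k, A k (M k) = cpy hφ.toNFlow (P + v) a k := by
    intro k
    simp only [hA, cpy]
    congr 2
    rw [div_self (hMr k).ne', Complex.ofReal_one, one_mul]
  have hAz : ∀ k, a.1 k = 0 → ∀ l, A k l = 1 := by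
    intro k hk l
    simp only [hA]
    rw [hk, thP_zero, map_one]
  have hstep : ∀ k, ∀ l < M k, T.1 k * A k l * (T.1 k)⁻¹ = A k (l + 1) := by
    intro k l hl
    by_cases hk : a.1 k = 0
    · rw [hAz k hk, hAz k hk, mul_one, mul_inv_cancel]
    · simp only [hA]
      rw [conj_tr hφ (T.1 k) (P + (l / M k : ℝ) * v) ((1 / M k : ℝ) * v)]
      · congr 2
        push_cast
        have : (M k : ℂ) ≠ 0 := by exact_mod_cast (hMr k).ne'
        field_simp
        ring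
      · intro w hw
        rw [hTw, near_xi hv (hMpos k) hl.le hw]
        simp only [hτ, if_neg hk]
  have hAmem : ∀ k, ∀ l ≤ M k, ∀ w, w ∉ Cor P v → A k l w = w := by
    intro k l hl w hw
    have h1 : cpy hφ.toNFlow (P + (l / M k : ℝ) * v) a ∈ FamG (Cor P v) :=
      cpy_mem hφ (fun w hw => near_mem hv (hMpos k) hl hw) a
    exact h1 k w hw
  set L : ℕ → List (Equiv.Perm ℂ) := fun k => (List.range (M k - 1)).map fun l => A k (l + 1)
    with hL
  have hXmem : (fun k => (L k).prod) ∈ FamG (Cor P v) := by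
    intro k w hw
    have h1 : ∀ L' : List (Equiv.Perm ℂ), (∀ B ∈ L', B w = w) → L'.prod w = w := by
      intro L' h
      induction L' with
      | nil => rfl
      | cons b l ih =>
        rw [List.prod_cons, Equiv.Perm.mul_apply, ih fun B hB => h B (List.mem_cons_of_mem _ hB),
          h b List.mem_cons_self]
    refine h1 _ fun B hB => ?_
    obtain ⟨l, hl, rfl⟩ := List.mem_map.mp hB
    have hl' := List.mem_range.mp hl
    exact hAmem k (l + 1) (by omega) w hw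
  have hlen : ∀ k, (L k).length ≤ M k := by
    intro k
    simp only [hL, List.length_map, List.length_range]
    exact Nat.sub_le _ _
  have hXD : Dcy (fun k => (L k).prod) := by
    refine list_Dcy hφ.toNFlow a M D q hq hq1 hD hMa L hlen fun k B hB => ?_
    obtain ⟨l, hl, rfl⟩ := List.mem_map.mp hB
    exact ⟨_, _, rfl, rfl⟩
  have hXD' : Dcy (fun k => (L k).prod)⁻¹ := by
    have e : (fun k => (L k).prod)⁻¹ = fun k => (((L k).map fun B => B⁻¹).reverse).prod := by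
      funext k
      exact List.prod_inv_reverse (L k)
    rw [e]
    refine list_Dcy hφ.toNFlow a M D q hq hq1 hD hMa _ (fun k => ?_) fun k B hB => ?_
    · rw [List.length_reverse, List.length_map]; exact hlen k
    · rw [List.mem_reverse] at hB
      obtain ⟨B', hB', rfl⟩ := List.mem_map.mp hB
      obtain ⟨l, hl, rfl⟩ := List.mem_map.mp hB'
      refine ⟨P + (((l + 1 : ℕ) : ℝ) / M k : ℝ) * v, -(a.1 k), abs_neg _, ?_⟩
      rw [thP_neg, map_inv]
  -- the four elements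
  set f : FamG (Cor P v) := ⟨cpy hφ.toNFlow P a, cpy_mem hφ (fun w hw => by
    refine near_mem hv one_pos (Nat.zero_le 1) (l := 0) (M := 1) ?_
    simpa using hw) a⟩ with hf
  set f'' : FamG (Cor P v) := ⟨cpy hφ.toNFlow (P + v) a, cpy_mem hφ (fun w hw => by
    refine near_mem hv one_pos le_rfl (l := 1) (M := 1) ?_
    simpa using hw) a⟩ with hf''
  set X : FamG (Cor P v) := ⟨fun k => (L k).prod, hXmem⟩ with hX
  have hfg : glue hΩ f ∈ DiffC := glue_mem hΩ _ (cpy_Dcy hφ.toNFlow P a) (by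
    change Dcy (cpy hφ.toNFlow P a)⁻¹
    rw [← cpy_neg]; exact cpy_Dcy hφ.toNFlow P _)
  have hfg'' : glue hΩ f'' ∈ DiffC := glue_mem hΩ _ (cpy_Dcy hφ.toNFlow (P + v) a) (by
    change Dcy (cpy hφ.toNFlow (P + v) a)⁻¹
    rw [← cpy_neg]; exact cpy_Dcy hφ.toNFlow (P + v) _)
  have hXg : glue hΩ X ∈ DiffC := glue_mem hΩ _ hXD hXD'
  have hid : f * X * T * (f * X)⁻¹ * T⁻¹ = f * X * f''⁻¹ * X⁻¹ := by
    apply Subtype.ext
    funext k
    have hm : M k - 1 + 1 = M k := Nat.sub_add_cancel (hMpos k)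
    have h1 := slow_identity (A k) (T.1 k) (M k - 1) (fun l hl => hstep k l (by omega))
    rw [hm, hA0, hAM] at h1
    exact h1
  refine slow_comm p hp hc ⟨_, hfg⟩ ⟨_, hXg⟩ ⟨_, hfg''⟩ ⟨_, hTg⟩ x x'' y
    (diffC_ext fun z => hx z) (diffC_ext fun z => hx'' z) ?_ ?_ ?_ ?_ ?_
  · refine glue_comm hΩ a.1 (p y) hy f (fun k hk => ?_) _ rfl
    change cpy hφ.toNFlow P a k = 1
    rw [← hA0, hAz k hk]
  · refine glue_comm hΩ a.1 (p y) hy X (fun k hk => ?_) _ rfl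
    change (L k).prod = 1
    refine List.prod_eq_one fun B hB => ?_
    obtain ⟨l, hl, rfl⟩ := List.mem_map.mp hB
    exact hAz k hk _
  · refine glue_comm hΩ a.1 (p y) hy f'' (fun k hk => ?_) _ rfl
    change cpy hφ.toNFlow (P + v) a k = 1
    rw [← hAM, hAz k hk]
  · refine glue_comm hΩ a.1 (p y) hy T (fun k hk => ?_) _ rfl
    ext w
    rw [hTw]
    simp only [hτ, if_pos hk]
    simp
  · apply Subtype.ext
    have h2 := congrArg (glue hΩ) hid
    rw [map_mul, map_mul, map_mul, map_mul, map_inv, map_inv, map_mul, map_mul, map_mul, map_mul,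
      map_inv, map_inv] at h2
    exact h2

end Pool.Agent.H27G
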